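import Pool.Agent.MP_760060_nt.Defs

section

/-! Reversal of digit strings of a fixed length. -/

namespace Pool.Agent.MP_760060_nt

/-- Reversal of the last `k` digits. -/
def R : ℕ → ℕ → ℕ
  | 0, _ => 0
  | k + 1, m => m % 10 * 10 ^ k + R k (m / 10)

lemma R_lt (k m : ℕ) : R k m < 10 ^ k := by
  induction k generalizing m with
  | zero => simp [R]
  | succ k ih =>
    have h1 := ih (m / 10)
    have h2 : m % 10 * 10 ^ k ≤ 9 * 10 ^ k := Nat.mul_le_mul_right _ (by omega)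
    rw [R, pow_succ]
    omega

lemma R_add (a b y : ℕ) {x : ℕ} (hx : x < 10 ^ a) :
    R (a + b) (x + 10 ^ a * y) = R b y + 10 ^ b * R a x := by
  induction a generalizing x with
  | zero =>
    have : x = 0 := by simpa using hx
    simp [this, R]
  | succ a ih =>
    have e1 : x + 10 ^ (a + 1) * y = x + 10 * (10 ^ a * y) := by ring
    have h1 : x / 10 < 10 ^ a := by
      rw [pow_succ] at hx
      omega
    rw [Nat.add_right_comm, R, e1, Nat.add_mul_mod_self_left,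
      Nat.add_mul_div_left _ _ (by norm_num), ih h1, R]
    ring

lemma R_one {d : ℕ} (hd : d < 10) : R 1 d = d := by
  simp [R, Nat.mod_eq_of_lt hd]

lemma R_R {k m : ℕ} (h : m < 10 ^ k) : R k (R k m) = m := by
  induction k generalizing m with
  | zero =>
    have : m = 0 := by simpa using h
    simp [R, this]
  | succ k ih =>
    have h1 : m / 10 < 10 ^ k := by
      rw [pow_succ] at h
      omega
    have e : R (k + 1) m = R k (m / 10) + 10 ^ k * (m % 10) := by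
      rw [R]
      ring
    rw [e, R_add k 1 _ (R_lt _ _), ih h1, R_one (Nat.mod_lt _ (by norm_num))]
    omega

lemma rev_eq_len (n : ℕ) : rev n = R (Nat.digits 10 n).length n := by
  induction n using Nat.strong_induction_on with
  | _ n ih =>
    rcases Nat.eq_zero_or_pos n with rfl | hn
    · simp [rev, R]
    · have := ih (n / 10) (by omega)
      unfold rev at this ⊢
      rw [Nat.digits_def' (by norm_num) hn, List.reverse_cons, Nat.ofDigits_append, this,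
        List.length_cons, R]
      simp only [List.length_reverse, Nat.ofDigits_singleton]
      ring

lemma len_eq {k n : ℕ} (h1 : 10 ^ k ≤ n) (h2 : n < 10 ^ (k + 1)) :
    (Nat.digits 10 n).length = k + 1 :=
  le_antisymm ((Nat.digits_length_le_iff (by norm_num) n).2 h2)
    ((Nat.lt_digits_length_iff (by norm_num) n).2 h1)

lemma rev_eq {k n : ℕ} (h1 : 10 ^ k ≤ n) (h2 : n < 10 ^ (k + 1)) : rev n = R (k + 1) n := by
  rw [rev_eq_len, len_eq h1 h2]

lemma rho_succ (c k : ℕ) : rho (c + 1) k = rho c k + 10 ^ (k * c) := Finset.sum_range_succ _ _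

lemma rho_succ' (c k : ℕ) : rho (c + 1) k = 1 + 10 ^ k * rho c k := by
  unfold rho
  rw [Finset.sum_range_succ', Finset.mul_sum, add_comm]
  simp [mul_add, pow_add, mul_comm]

lemma rep {k n : ℕ} (hn : n < 10 ^ k) (c : ℕ) :
    n * rho c k < 10 ^ (k * c) ∧ R (k * c) (n * rho c k) = R k n * rho c k := by
  induction c with
  | zero => simp [rho, R]
  | succ c ih =>
    have e : n * rho (c + 1) k = n + 10 ^ k * (n * rho c k) := by
      rw [rho_succ']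
      ring
    have e2 : k * (c + 1) = k + k * c := by ring
    rw [e, e2, R_add _ _ _ hn, ih.2, rho_succ, pow_add]
    refine ⟨?_, by ring⟩
    calc n + 10 ^ k * (n * rho c k) < 10 ^ k * (n * rho c k + 1) := by
          rw [mul_add]
          omega
      _ ≤ _ := Nat.mul_le_mul_left _ ih.1

lemma rev_rep {k n : ℕ} (h1 : 10 ^ k ≤ n) (h2 : n < 10 ^ (k + 1)) {c : ℕ} (hc : 1 ≤ c) :
    rev (n * rho c (k + 1)) = rev n * rho c (k + 1) := by
  obtain ⟨c, rfl⟩ := Nat.exists_eq_add_of_le' hc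
  have h := rep h2 (c + 1)
  have e : (k + 1) * (c + 1) = (k + (k + 1) * c) + 1 := by ring
  rw [rev_eq h1 h2, ← h.2, e]
  refine rev_eq ?_ (e ▸ h.1)
  rw [rho_succ, pow_add]
  exact Nat.mul_le_mul h1 (Nat.le_add_left _ _)

lemma rho_mod {c k : ℕ} (hc : 1 ≤ c) (hk : 1 ≤ k) : ∃ t, rho c k = 1 + 10 * t := by
  obtain ⟨c, rfl⟩ := Nat.exists_eq_add_of_le' hc
  obtain ⟨k, rfl⟩ := Nat.exists_eq_add_of_le' hk
  exact ⟨10 ^ k * rho c (k + 1), by rw [rho_succ']; ring⟩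

lemma rho_mul (c k : ℕ) : rho c k * (10 ^ k - 1) = (10 ^ k) ^ c - 1 := by
  have h := geom_sum_mul_add (10 ^ k - 1) c
  rw [Nat.sub_add_cancel (Nat.one_le_pow _ _ (by norm_num))] at h
  rw [← h, Nat.add_sub_cancel]
  simp only [rho, pow_mul]

/-- Splitting a sum over a range into a low and a high block. -/
lemma sum_block {M : Type} [AddCommMonoid M] (f : ℕ → M) (A B : ℕ) :
    ∑ m ∈ Finset.range (A * B), f m = ∑ y ∈ Finset.range B, ∑ x ∈ Finset.range A, f (x + A * y) := by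
  induction B with
  | zero => simp
  | succ B ih =>
    rw [Nat.mul_succ, Finset.sum_range_add, ih, Finset.sum_range_succ]
    simp only [add_comm]

/-- Reversal permutes the strings of length `k`. -/
lemma card_R (k : ℕ) (P : ℕ → Prop) [DecidablePred P] :
    ((Finset.range (10 ^ k)).filter fun m => P (R k m)).card =
      ((Finset.range (10 ^ k)).filter P).card := by
  refine Finset.card_nbij' (R k) (R k) (fun m hm => ?_) (fun m hm => ?_) (fun m hm => ?_)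
    (fun m hm => ?_)
  all_goals simp only [Finset.coe_filter, Finset.mem_range, Set.mem_ofPred_eq] at hm ⊢
  · exact ⟨R_lt _ _, hm.2⟩
  · exact ⟨R_lt _ _, by rw [R_R hm.1]; exact hm.2⟩
  · exact R_R hm.1
  · exact R_R hm.1

end Pool.Agent.MP_760060_nt

end

section

/-! The deterministic step: enough flexible primes give a v-palindromic repetition. -/

namespace Pool.Agent.MP_760060_nt

open Finset

def phi (p e : ℕ) : ℕ := if e = 0 then 0 else p + if e = 1 then 0 else e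

def gw (p e : ℕ) : ℕ := if p = 2 ∨ p = 5 then phi p e else e

/-- The number of prime factors with multiplicity. -/
def Om (n : ℕ) : ℕ := ∑ p ∈ n.primeFactors, n.factorization p

def ww (n : ℕ) : ℕ := ∑ p ∈ n.primeFactors, gw p (n.factorization p)

/-- A prime whose contribution can be chosen to be one or two. -/
structure Flex (k n r p : ℕ) : Prop where
  pr : p.Prime
  big : k < p
  five : 5 < p
  nw : ¬ p ^ 2 ∣ 10 ^ (p - 1) - 1
  nk : ¬ p ∣ 10 ^ k - 1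
  dn : p ∣ n
  sq : ¬ p ^ 2 ∣ n
  nr : ¬ p ∣ r
  nq : ∀ q, q.Prime → q ∣ n * r → ¬ p ∣ q - 1

lemma sum_ext {N t : ℕ} (ht : t ≠ 0) (h : N ∣ t) (hN : N ≠ 0) (f : ℕ → ℕ → ℕ) (hf : ∀ p, f p 0 = 0) :
    ∑ p ∈ N.primeFactors, f p (N.factorization p) =
      ∑ p ∈ t.primeFactors, f p (N.factorization p) := by
  refine sum_subset (Nat.primeFactors_mono h ht) fun p hp hp' => ?_
  rw [← Nat.support_factorization, Finsupp.notMem_support_iff] at hp'
  have _ := hN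
  rw [hp', hf]

lemma vv_eq (N : ℕ) : vv N = ∑ p ∈ N.primeFactors, phi p (N.factorization p) := by
  refine sum_congr rfl fun p hp => ?_
  rw [← Nat.support_factorization, Finsupp.mem_support_iff] at hp
  rw [phi, if_neg hp]

lemma Om_le_ww (n : ℕ) : Om n ≤ ww n := by
  refine sum_le_sum fun p hp => ?_
  have := (Nat.prime_of_mem_primeFactors hp).two_le
  unfold gw phi
  split_ifs <;> omega

lemma ww_le (n : ℕ) : ww n ≤ Om n + 7 := by
  have h1 : ww n ≤ ∑ p ∈ n.primeFactors,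
      (n.factorization p + ((if p = 2 then 2 else 0) + if p = 5 then 5 else 0)) := by
    refine sum_le_sum fun p _ => ?_
    unfold gw phi
    split_ifs <;> omega
  rw [sum_add_distrib, sum_add_distrib, sum_ite_eq', sum_ite_eq'] at h1
  unfold Om
  split_ifs at h1 <;> omega

lemma not_dvd_ten {p : ℕ} (hp : p.Prime) (h2 : p ≠ 2) (h5 : p ≠ 5) : ¬ p ∣ 10 := fun h => by
  rcases (Nat.Prime.dvd_mul hp).1 (show p ∣ 2 * 5 from h) with h | h
  · exact h2 ((Nat.prime_dvd_prime_iff_eq hp Nat.prime_two).1 h)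
  · exact h5 ((Nat.prime_dvd_prime_iff_eq hp Nat.prime_five).1 h)

lemma fermat {p : ℕ} (hp : p.Prime) (h : ¬ p ∣ 10) : p ∣ 10 ^ (p - 1) - 1 :=
  (Nat.modEq_iff_dvd' (Nat.one_le_pow _ _ (by norm_num))).1
    (Nat.ModEq.pow_card_sub_one_eq_one hp ((Nat.Prime.coprime_iff_not_dvd hp).2 h).symm).symm

lemma lte {p a m : ℕ} (hp : p.Prime) (h2 : p ≠ 2) (h : ¬ p ∣ 10) (ha : a ≠ 0) (hm : m ≠ 0)
    (hd : p ∣ 10 ^ a - 1) : (10 ^ (a * m) - 1).factorization p =
      (10 ^ a - 1).factorization p + m.factorization p := by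
  have := Fact.mk hp
  have h1 := padicValNat.pow_sub_pow (hp.odd_of_ne_two h2) (x := 10 ^ a) (y := 1)
    (Nat.one_lt_pow ha (by norm_num)) hd (fun hc => h (hp.dvd_of_dvd_pow hc)) hm
  rw [one_pow, ← pow_mul] at h1
  simp only [Nat.factorization_def _ hp, h1]

lemma ten_ne {a : ℕ} (ha : a ≠ 0) : 10 ^ a - 1 ≠ 0 :=
  Nat.sub_ne_zero_of_lt (Nat.one_lt_pow ha (by norm_num))

lemma rho_ne {c k : ℕ} (hc : 1 ≤ c) (hk : 1 ≤ k) : rho c k ≠ 0 := by
  obtain ⟨t, ht⟩ := rho_mod hc hk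
  omega

lemma rho_fac {c k : ℕ} (hc : 1 ≤ c) (hk : 1 ≤ k) (p : ℕ) :
    (rho c k).factorization p + (10 ^ k - 1).factorization p =
      (10 ^ (k * c) - 1).factorization p := by
  rw [pow_mul, ← rho_mul, Nat.factorization_mul (rho_ne hc hk) (ten_ne (by omega))]
  rfl

lemma rho_two {c k q : ℕ} (hc : 1 ≤ c) (hk : 1 ≤ k) (hq : q.Prime) (h2 : q ≠ 2) (h5 : q ≠ 5)
    (hd : (q - 1) * q ^ 2 ∣ c) : 2 ≤ (rho c k).factorization q := by
  obtain ⟨m, rfl⟩ := hd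
  have hm : m ≠ 0 := by rintro rfl; simp at hc
  have h10 := not_dvd_ten hq h2 h5
  have hq1 : q - 1 ≠ 0 := by have := hq.two_le; omega
  have ha : k * ((q - 1) * m) ≠ 0 := by positivity
  have h1 := rho_fac hc hk q
  have e : k * ((q - 1) * q ^ 2 * m) = k * ((q - 1) * m) * q ^ 2 := by ring
  have hd : q ∣ 10 ^ (k * ((q - 1) * m)) - 1 := by
    refine (fermat hq h10).trans ?_
    rw [show k * ((q - 1) * m) = (q - 1) * (k * m) by ring, pow_mul]
    exact Nat.sub_one_dvd_pow_sub_one _ _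
  rw [e, lte hq h2 h10 ha (pow_ne_zero 2 hq.ne_zero) hd, hq.factorization_pow,
    Finsupp.single_eq_same] at h1
  have h3 : (10 ^ k - 1).factorization q ≤ (10 ^ (k * ((q - 1) * m)) - 1).factorization q := by
    refine (Nat.factorization_le_iff_dvd (ten_ne (by omega)) (ten_ne ha)).2 ?_ q
    rw [pow_mul]
    exact Nat.sub_one_dvd_pow_sub_one _ _
  omega

lemma fac_one {p N : ℕ} (hp : p.Prime) (h1 : p ∣ N) (h2 : ¬ p ^ 2 ∣ N) : N.factorization p = 1 := by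
  have hN : N ≠ 0 := by rintro rfl; exact h2 (dvd_zero _)
  rw [hp.dvd_iff_one_le_factorization hN] at h1
  rw [hp.pow_dvd_iff_le_factorization hN] at h2
  omega

lemma rho_one {c k n r p : ℕ} (hc : 1 ≤ c) (hk : 1 ≤ k) (h : Flex k n r p) (hd : p - 1 ∣ c)
    (hn : ¬ p ∣ c) : (rho c k).factorization p = 1 := by
  obtain ⟨m, rfl⟩ := hd
  have hm : m ≠ 0 := by rintro rfl; simp at hc
  have h5 := h.five
  have h10 := not_dvd_ten h.pr (by omega) (by omega)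
  have h1 := rho_fac hc hk p
  have e : k * ((p - 1) * m) = (p - 1) * (k * m) := by ring
  have h3 : ¬ p ∣ k * m := fun hc => by
    rcases (Nat.Prime.dvd_mul h.pr).1 hc with h4 | h4
    · exact Nat.not_dvd_of_pos_of_lt hk h.big h4
    · exact hn (h4.mul_left _)
  rw [e, lte h.pr (by omega) h10 (by omega) (by positivity) (fermat h.pr h10),
    fac_one h.pr (fermat h.pr h10) h.nw, Nat.factorization_eq_zero_of_not_dvd h3,
    Nat.factorization_eq_zero_of_not_dvd h.nk] at h1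
  omega

lemma det0 {k n r : ℕ} (hk : 1 ≤ k) (hn : n ≠ 0) (hr : r ≠ 0) (F : Finset ℕ)
    (hF : ∀ p ∈ F, Flex k n r p) (hc : ww n + F.card = ww r) :
    ∃ c, 1 ≤ c ∧ vv (n * rho c k) = vv (r * rho c k) := by
  set s := (n * r).primeFactors with hs
  set c := (∏ q ∈ s, (q - 1)) * ∏ q ∈ s \ F, q ^ 2 with hcdef
  have hnr : n * r ≠ 0 := mul_ne_zero hn hr
  have c1 : 1 ≤ c := by
    refine Nat.pos_of_ne_zero (mul_ne_zero (prod_ne_zero_iff.2 fun q hq => ?_)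
      (prod_ne_zero_iff.2 fun q hq => ?_))
    · have := (Nat.prime_of_mem_primeFactors hq).two_le
      omega
    · exact pow_ne_zero 2 (Nat.prime_of_mem_primeFactors (mem_sdiff.1 hq).1).ne_zero
  have hρ := rho_ne c1 hk
  have hFs : F ⊆ s := fun p hp =>
    Nat.mem_primeFactors.2 ⟨(hF p hp).pr, (hF p hp).dn.mul_right _, hnr⟩
  refine ⟨c, c1, ?_⟩
  have ht : n * r * rho c k ≠ 0 := mul_ne_zero hnr hρ
  have z1 : ∀ p, phi p 0 = 0 := fun p => by simp [phi]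
  have z2 : ∀ p, gw p 0 = 0 := fun p => by simp [gw, phi]
  have hst : s ⊆ (n * r * rho c k).primeFactors := Nat.primeFactors_mono (dvd_mul_right _ _) ht
  have e5 : F.card = ∑ p ∈ (n * r * rho c k).primeFactors, if p ∈ F then 1 else 0 := by
    rw [← card_filter, filter_mem_eq_inter, inter_eq_right.2 (hFs.trans hst)]
  rw [ww, ww, sum_ext ht (Dvd.intro (r * rho c k) (by ring)) hn gw z2,
    sum_ext ht (Dvd.intro (n * rho c k) (by ring)) hr gw z2, e5, ← sum_add_distrib] at hc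
  rw [vv_eq, vv_eq, sum_ext ht (Dvd.intro r (by ring)) (mul_ne_zero hn hρ) phi z1,
    sum_ext ht (Dvd.intro n (by ring)) (mul_ne_zero hr hρ) phi z1]
  refine Nat.add_right_cancel (m := ∑ p ∈ (n * r * rho c k).primeFactors,
    gw p (r.factorization p)) ?_
  rw [← sum_add_distrib, ← hc, ← sum_add_distrib]
  refine sum_congr rfl fun p hp => ?_
  have hp' := Nat.prime_of_mem_primeFactors hp
  rw [Nat.factorization_mul hn hρ, Nat.factorization_mul hr hρ, Finsupp.add_apply,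
    Finsupp.add_apply]
  by_cases h25 : p = 2 ∨ p = 5
  · have h1 : p ∉ F := fun h => by have := (hF p h).five; omega
    have h2 : (rho c k).factorization p = 0 := by
      refine Nat.factorization_eq_zero_of_not_dvd ?_
      obtain ⟨t, ht⟩ := rho_mod c1 hk
      rcases h25 with rfl | rfl <;> omega
    simp only [gw, if_pos h25, if_neg h1, h2, add_zero]
    omega
  simp only [gw, if_neg h25]
  by_cases h1 : p ∈ F
  · have h := hF p h1
    have h2 : (rho c k).factorization p = 1 := by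
      refine rho_one c1 hk h ((dvd_prod_of_mem _ (hFs h1)).mul_right _) fun hd => ?_
      rcases (Nat.Prime.dvd_mul hp').1 hd with hd | hd
      · obtain ⟨q, hq, hd⟩ := (hp'.prime.dvd_finsetProd_iff _).1 hd
        exact h.nq q (Nat.prime_of_mem_primeFactors hq) (Nat.dvd_of_mem_primeFactors hq) hd
      · obtain ⟨q, hq, hd⟩ := (hp'.prime.dvd_finsetProd_iff _).1 hd
        have := (Nat.prime_dvd_prime_iff_eq hp'
          (Nat.prime_of_mem_primeFactors (mem_sdiff.1 hq).1)).1 (hp'.dvd_of_dvd_pow hd)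
        exact (mem_sdiff.1 hq).2 (this ▸ h1)
    rw [h2, fac_one hp' h.dn h.sq, Nat.factorization_eq_zero_of_not_dvd h.nr, if_pos h1]
    simp [phi]
  rw [if_neg h1]
  by_cases h3 : p ∈ s
  · have h2 : 2 ≤ (rho c k).factorization p :=
      rho_two c1 hk hp' (fun h => h25 (Or.inl h)) (fun h => h25 (Or.inr h))
        (mul_dvd_mul (dvd_prod_of_mem _ h3) (dvd_prod_of_mem (fun q => q ^ 2)
          (mem_sdiff.2 ⟨h3, h1⟩)))
    unfold phi
    split_ifs <;> omega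
  · have h4 : ¬ p ∣ n * r := fun h => h3 (Nat.mem_primeFactors.2 ⟨hp', h, hnr⟩)
    rw [Nat.factorization_eq_zero_of_not_dvd fun h => h4 (h.mul_right _),
      Nat.factorization_eq_zero_of_not_dvd fun h => h4 (h.mul_left _)]

/-- If both numbers have many flexible primes, some repetition balances. -/
lemma det {k n r : ℕ} (hk : 1 ≤ k) (hn : n ≠ 0) (hr : r ≠ 0) (F G : Finset ℕ)
    (hF : ∀ p ∈ F, Flex k n r p) (hG : ∀ p ∈ G, Flex k r n p)
    (h1 : Om r + 7 ≤ Om n + F.card) (h2 : Om n + 7 ≤ Om r + G.card) :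
    ∃ c, 1 ≤ c ∧ vv (n * rho c k) = vv (r * rho c k) := by
  have a1 := Om_le_ww n
  have a2 := Om_le_ww r
  have a3 := ww_le n
  have a4 := ww_le r
  rcases le_total (ww n) (ww r) with h | h
  · obtain ⟨F', h3, h4⟩ := exists_subset_card_eq (s := F) (n := ww r - ww n) (by omega)
    exact det0 hk hn hr F' (fun p hp => hF p (h3 hp)) (by omega)
  · obtain ⟨G', h3, h4⟩ := exists_subset_card_eq (s := G) (n := ww n - ww r) (by omega)
    obtain ⟨c, h5, h6⟩ := det0 hk hr hn G' (fun p hp => hG p (h3 hp)) (by omega)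
    exact ⟨c, h5, h6.symm⟩

/-- The same for a number with `k + 1` digits and its reversal. -/
lemma not_mem_T {k n : ℕ} (h1 : 10 ^ k ≤ n) (h2 : n < 10 ^ (k + 1)) (F G : Finset ℕ)
    (hF : ∀ p ∈ F, Flex (k + 1) n (R (k + 1) n) p) (hG : ∀ p ∈ G, Flex (k + 1) (R (k + 1) n) n p)
    (h3 : Om (R (k + 1) n) + 7 ≤ Om n + F.card) (h4 : Om n + 7 ≤ Om (R (k + 1) n) + G.card) :
    n ∉ T := by
  rintro ⟨⟨s1, s2⟩, hT⟩
  have hn : n ≠ 0 := by rintro rfl; exact s1 (dvd_zero _)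
  rw [← rev_eq h1 h2] at hF hG h3 h4
  obtain ⟨c, c1, hc⟩ := det (by omega) hn (by omega) F G hF hG h3 h4
  rw [len_eq h1 h2] at hT
  refine hT c c1 ⟨fun hd => s1 ?_, ?_, ?_⟩
  · obtain ⟨t, ht⟩ := rho_mod c1 (show 1 ≤ k + 1 by omega)
    rw [ht, mul_add, mul_one, mul_left_comm] at hd
    omega
  · rw [rev_rep h1 h2 c1]
    exact fun h => s2.ne (Nat.eq_of_mul_eq_mul_right
      (Nat.pos_of_ne_zero (rho_ne c1 (by omega))) h)
  · rw [rev_rep h1 h2 c1, hc]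

end Pool.Agent.MP_760060_nt

end

section

/-! Counting lemmas: divisibility, the variance of the number of prime factors, sums of
reciprocals of primes. -/

namespace Pool.Agent.MP_760060_nt

open Finset

open Classical in
/-- The number of `m < X` with property `B`. -/
noncomputable def cnt (X : ℕ) (B : ℕ → Prop) : ℝ := ∑ m ∈ range X, if B m then 1 else 0

/-- The number of elements of `P` that divide `m`. -/
def om (P : Finset ℕ) (m : ℕ) : ℕ := (P.filter (· ∣ m)).card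

/-- The sum of the reciprocals. -/
noncomputable def Hs (P : Finset ℕ) : ℝ := ∑ p ∈ P, (1 : ℝ) / p

def pr (a b : ℕ) : Finset ℕ := (Ioc a b).filter Nat.Prime

lemma cnt_eq (X : ℕ) (B : ℕ → Prop) [DecidablePred B] :
    cnt X B = ((range X).filter B).card := by
  rw [card_filter, cnt]
  push_cast
  exact sum_congr rfl fun m _ => by congr

lemma cnt_nonneg (X : ℕ) (B : ℕ → Prop) : 0 ≤ cnt X B :=
  sum_nonneg fun _ _ => by positivity

lemma cnt_le (X : ℕ) (B : ℕ → Prop) : cnt X B ≤ X := by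
  classical
  rw [cnt_eq]
  exact_mod_cast (card_filter_le _ _).trans (card_range X).le

lemma cnt_union {ι : Type} {X : ℕ} {B : ℕ → Prop} (I : Finset ι) (E : ι → ℕ → Prop)
    (h : ∀ m < X, B m → ∃ i ∈ I, E i m) : cnt X B ≤ ∑ i ∈ I, cnt X (E i) := by
  unfold cnt
  rw [sum_comm]
  refine sum_le_sum fun m hm => ?_
  split_ifs with hB
  · obtain ⟨i, hi, hE⟩ := h m (mem_range.1 hm) hB
    refine le_trans ?_ (single_le_sum (fun _ _ => by positivity) hi)
    rw [if_pos hE]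
  · exact sum_nonneg fun _ _ => by positivity

lemma cnt_mono {X : ℕ} {A B : ℕ → Prop} (h : ∀ m < X, A m → B m) : cnt X A ≤ cnt X B := by
  refine sum_le_sum fun m hm => ?_
  by_cases hA : A m
  · rw [if_pos hA, if_pos (h m (mem_range.1 hm) hA)]
  · rw [if_neg hA]
    positivity

lemma cnt_or (X : ℕ) (A B : ℕ → Prop) : cnt X (fun m => A m ∨ B m) ≤ cnt X A + cnt X B := by
  unfold cnt
  rw [← sum_add_distrib]
  refine sum_le_sum fun m _ => ?_
  by_cases hA : A m <;> by_cases hB : B m <;> simp [hA, hB]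

lemma cnt_R (k : ℕ) (B : ℕ → Prop) : cnt (10 ^ k) (fun m => B (R k m)) = cnt (10 ^ k) B := by
  classical
  rw [cnt_eq, cnt_eq, card_R k B]

lemma cnt_dvd0 (X d : ℕ) : cnt X (fun m => m ≠ 0 ∧ d ∣ m) ≤ X / d := by
  rw [cnt_eq]
  refine le_trans ?_ Nat.cast_div_le
  rw [← Nat.Ioc_filter_dvd_card_eq_div]
  refine Nat.cast_le.2 (card_le_card fun m hm => ?_)
  simp only [mem_filter, mem_range, mem_Ioc] at hm ⊢
  exact ⟨⟨Nat.pos_of_ne_zero hm.2.1, hm.1.le⟩, hm.2.2⟩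

lemma cnt_zero (X : ℕ) : cnt X (fun m => m = 0) ≤ 1 := by
  rw [cnt_eq]
  have h : ((range X).filter fun m => m = 0).card ≤ 1 := card_le_one.2 fun a ha b hb => by
    rw [(mem_filter.1 ha).2, (mem_filter.1 hb).2]
  exact_mod_cast h

lemma cnt_dvd_le (X d : ℕ) : cnt X (fun m => d ∣ m) ≤ X / d + 1 := by
  refine (cnt_mono (B := fun m => (m ≠ 0 ∧ d ∣ m) ∨ m = 0) fun m _ h => ?_).trans
    ((cnt_or _ _ _).trans (add_le_add (cnt_dvd0 X d) (cnt_zero X)))
  by_cases h0 : m = 0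
  · exact Or.inr h0
  · exact Or.inl ⟨h0, h⟩

lemma le_cnt_dvd (X : ℕ) {d : ℕ} (hd : 0 < d) : (X : ℝ) / d ≤ cnt X (fun m => d ∣ m) := by
  rw [cnt_eq, div_le_iff₀ (by exact_mod_cast hd)]
  have h : (range X).card ≤ (((range X).filter fun m => d ∣ m) ×ˢ range d).card := by
    refine card_le_card_of_injOn (fun m => (d * (m / d), m % d)) (fun m hm => ?_)
      (fun m _ n _ h => ?_)
    · simp only [coe_product, coe_filter, mem_range, coe_range, Set.mem_prod, Set.mem_ofPred_eq,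
        Set.mem_Iio] at hm ⊢
      exact ⟨⟨lt_of_le_of_lt (Nat.mul_div_le m d) hm, dvd_mul_right _ _⟩, Nat.mod_lt _ hd⟩
    · simp only [Prod.mk.injEq] at h
      rw [← Nat.div_add_mod m d, ← Nat.div_add_mod n d, h.1, h.2]
  rw [card_product, card_range, card_range] at h
  exact_mod_cast h

lemma Hs_nonneg (P : Finset ℕ) : 0 ≤ Hs P := sum_nonneg fun _ _ => by positivity

lemma Hs_mono {P Q : Finset ℕ} (h : P ⊆ Q) : Hs P ≤ Hs Q :=
  sum_le_sum_of_subset_of_nonneg h fun _ _ _ => by positivity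

lemma Hs_union (P Q : Finset ℕ) : Hs (P ∪ Q) ≤ Hs P + Hs Q := by
  have h := sum_union_inter (s₁ := P) (s₂ := Q) (f := fun p => (1 : ℝ) / p)
  have h2 := Hs_nonneg (P ∩ Q)
  unfold Hs at *
  linarith

lemma om_cast (P : Finset ℕ) (m : ℕ) : (om P m : ℝ) = ∑ p ∈ P, if p ∣ m then 1 else 0 := by
  rw [om, card_filter]
  push_cast
  rfl

/-- The variance of the number of prime factors. -/
lemma variance (X : ℕ) (P : Finset ℕ) (hP : ∀ p ∈ P, p.Prime) :
    ∑ m ∈ range X, ((om P m : ℝ) - Hs P) ^ 2 ≤ X * Hs P + (P.card : ℝ) ^ 2 := by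
  have h1 : X * Hs P ≤ ∑ m ∈ range X, (om P m : ℝ) := by
    simp_rw [om_cast]
    rw [sum_comm, Hs, mul_sum]
    refine sum_le_sum fun p hp => ?_
    rw [mul_one_div]
    refine (le_cnt_dvd X (hP p hp).pos).trans (le_of_eq ?_)
    exact sum_congr rfl fun m _ => by congr
  have h2 : ∑ m ∈ range X, (om P m : ℝ) ^ 2 ≤ X * Hs P + X * Hs P ^ 2 + (P.card : ℝ) ^ 2 := by
    have e : X * Hs P + X * Hs P ^ 2 + (P.card : ℝ) ^ 2 = ∑ p ∈ P, ∑ q ∈ P,
        ((if p = q then (X : ℝ) / p else 0) + X * (1 / p * (1 / q)) + 1) := by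
      simp only [sum_add_distrib, sum_const, nsmul_eq_mul, mul_one, ← mul_sum, ← sum_mul]
      rw [sum_congr rfl fun p hp => (sum_ite_eq P p fun _ => (X : ℝ) / p).trans (if_pos hp), sq, sq,
        Hs, mul_sum]
      simp only [mul_one_div]
    simp_rw [om_cast, sq, sum_mul_sum]
    rw [← sq, ← sq, e, sum_comm]
    refine sum_le_sum fun p hp => ?_
    rw [sum_comm]
    refine sum_le_sum fun q hq => ?_
    have e2 : ∑ m ∈ range X, (if p ∣ m then (1 : ℝ) else 0) * (if q ∣ m then 1 else 0) =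
        cnt X fun m => p ∣ m ∧ q ∣ m := sum_congr rfl fun m _ => by
      by_cases a : p ∣ m <;> by_cases b : q ∣ m <;> simp [a, b]
    rw [e2]
    split_ifs with h
    · refine (cnt_mono fun m _ h => h.1).trans ((cnt_dvd_le X p).trans ?_)
      have : (0 : ℝ) ≤ X * (1 / p * (1 / q)) := by positivity
      linarith
    · refine (cnt_mono fun m _ hm => ((Nat.coprime_primes (hP p hp) (hP q hq)).2
        h).mul_dvd_of_dvd_of_dvd hm.1 hm.2).trans ((cnt_dvd_le X (p * q)).trans (le_of_eq ?_))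
      push_cast
      ring
  have e : ∑ m ∈ range X, ((om P m : ℝ) - Hs P) ^ 2 = ∑ m ∈ range X, (om P m : ℝ) ^ 2 -
      2 * Hs P * ∑ m ∈ range X, (om P m : ℝ) + X * Hs P ^ 2 := by
    simp only [sub_sq, sum_add_distrib, sum_sub_distrib, sum_const, card_range, nsmul_eq_mul,
      mul_sum]
    congr 2
    exact sum_congr rfl fun _ _ => by ring
  have h3 := mul_le_mul_of_nonneg_left h1 (Hs_nonneg P)
  rw [e]
  nlinarith

lemma cheb (X : ℕ) (P : Finset ℕ) (hP : ∀ p ∈ P, p.Prime) (hc : P.card ^ 2 ≤ X) {t : ℝ}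
    (ht : 0 < t) : cnt X (fun m => t ≤ |(om P m : ℝ) - Hs P|) ≤ X * (Hs P + 1) / t ^ 2 := by
  have hc' : (P.card : ℝ) ^ 2 ≤ X := by exact_mod_cast hc
  rw [le_div_iff₀ (by positivity), cnt, sum_mul]
  refine le_trans (sum_le_sum fun m _ => ?_) ((variance X P hP).trans (by linarith))
  split_ifs with h
  · rw [one_mul, ← sq_abs (_ - _)]
    exact pow_le_pow_left₀ ht.le h 2
  · rw [zero_mul]
    positivity

lemma cnt_sq (X : ℕ) {D : ℕ} (hD : D ≠ 0) :
    cnt X (fun m => m ≠ 0 ∧ ∃ b, D < b ∧ b ^ 2 ∣ m) ≤ X / D := by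
  refine (cnt_union (Ioc D (D + X)) (fun b m => m ≠ 0 ∧ b ^ 2 ∣ m) ?_).trans ?_
  · rintro m hm ⟨h0, b, h1, h2⟩
    have := Nat.le_of_dvd (Nat.pos_of_ne_zero h0) ((dvd_pow_self b two_ne_zero).trans h2)
    exact ⟨b, mem_Ioc.2 ⟨h1, by omega⟩, h0, h2⟩
  refine (sum_le_sum fun b _ => cnt_dvd0 X (b ^ 2)).trans ?_
  have h := sum_Ioc_inv_sq_le_sub (α := ℝ) hD (Nat.le_add_right D X)
  simp only [div_eq_mul_inv, ← mul_sum]
  push_cast at h ⊢
  refine mul_le_mul_of_nonneg_left (h.trans ?_) (Nat.cast_nonneg _)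
  exact sub_le_self _ (by positivity)

lemma om_le_Om (P : Finset ℕ) (hP : ∀ p ∈ P, p.Prime) {m : ℕ} (hm : m ≠ 0) : om P m ≤ Om m := by
  have h1 : om P m ≤ m.primeFactors.card := card_le_card fun p hp =>
    Nat.mem_primeFactors.2 ⟨hP p (mem_filter.1 hp).1, (mem_filter.1 hp).2, hm⟩
  refine h1.trans ?_
  rw [card_eq_sum_ones]
  exact sum_le_sum fun p hp => ((Nat.prime_of_mem_primeFactors hp).dvd_iff_one_le_factorization
    hm).1 (Nat.dvd_of_mem_primeFactors hp)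

lemma Om_le_sq {b : ℕ} (hb : b ≠ 0) : Om b ≤ b * b := by
  refine (sum_le_card_nsmul _ _ b fun p _ => (Nat.factorization_lt p hb).le).trans ?_
  refine Nat.mul_le_mul_right _ ((card_le_card (t := Ioc 0 b) fun p hp => ?_).trans (by simp))
  exact mem_Ioc.2 ⟨(Nat.prime_of_mem_primeFactors hp).pos, Nat.le_of_mem_primeFactors hp⟩

lemma Om_le_om {m Y D : ℕ} (hm : m ≠ 0) (hY : m < Y ^ 3) (hD : ∀ b, D < b → ¬ b ^ 2 ∣ m) :
    Om m ≤ om (pr 0 Y) m + 2 * (D * D) + 2 := by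
  obtain ⟨a, b, hab, ha⟩ := Nat.sq_mul_squarefree m
  have hb : b ≠ 0 := by rintro rfl; simp at hab; exact hm hab.symm
  have hbD : b ≤ D := not_lt.1 fun h => hD b h ⟨a, hab.symm⟩
  have h1 : Om m ≤ 2 * Om b + m.primeFactors.card := by
    rw [Om, Om, sum_ext hm ((dvd_pow_self b two_ne_zero).trans ⟨a, hab.symm⟩) hb (fun _ e => e)
      (fun _ => rfl), card_eq_sum_ones, mul_sum, ← sum_add_distrib]
    refine sum_le_sum fun p _ => ?_
    have := ha.natFactorization_le_one p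
    rw [← hab, Nat.factorization_mul (pow_ne_zero 2 hb) ha.ne_zero, Nat.factorization_pow]
    simpa using this
  have h2 := (Om_le_sq hb).trans (Nat.mul_le_mul hbD hbD)
  have h3 : (m.primeFactors.filter (Y < ·)).card ≤ 2 := by
    by_contra hc
    have h4 := pow_card_le_prod (m.primeFactors.filter (Y < ·)) (fun p => p) Y
      fun p hp => (mem_filter.1 hp).2.le
    have h5 := Nat.le_of_dvd (Nat.pos_of_ne_zero hm) ((prod_dvd_prod_of_subset _ _ (fun p => p)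
      (filter_subset (Y < ·) _)).trans (Nat.prod_primeFactors_dvd m))
    have h6 : 0 < Y := Nat.pos_of_ne_zero (by rintro rfl; simp at hY)
    have h7 : Y ^ 3 ≤ _ := Nat.pow_le_pow_right h6 (not_le.1 hc)
    omega
  have h4 : m.primeFactors.card ≤ om (pr 0 Y) m + (m.primeFactors.filter (Y < ·)).card := by
    refine le_trans (card_le_card fun p hp => ?_) (card_union_le _ _)
    have hp' := Nat.prime_of_mem_primeFactors hp
    simp only [mem_union, mem_filter, pr, mem_Ioc]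
    rcases le_or_gt p Y with h | h
    · exact Or.inl ⟨⟨⟨hp'.pos, h⟩, hp'⟩, Nat.dvd_of_mem_primeFactors hp⟩
    · exact Or.inr ⟨hp, h⟩
  omega

lemma pr_prime {a b p : ℕ} (h : p ∈ pr a b) : p.Prime := (mem_filter.1 h).2

lemma mem_pr {a b p : ℕ} : p ∈ pr a b ↔ (a < p ∧ p ≤ b) ∧ p.Prime := by
  rw [pr, mem_filter, mem_Ioc]

lemma card_pr (a b : ℕ) : (pr a b).card ≤ b :=
  (card_filter_le _ _).trans (by simp)

lemma Hs_split (a b c : ℕ) : Hs (pr a c) ≤ Hs (pr a b) + Hs (pr b c) := by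
  refine (Hs_mono fun p hp => ?_).trans (Hs_union _ _)
  simp only [mem_union, mem_pr] at hp ⊢
  rcases le_or_gt p b with h | h
  · exact Or.inl ⟨⟨hp.1.1, h⟩, hp.2⟩
  · exact Or.inr ⟨⟨h, hp.1.2⟩, hp.2⟩

lemma Hs_le_card {P : Finset ℕ} {W : ℕ} (hW : 0 < W) (h : ∀ p ∈ P, W ≤ p) :
    Hs P ≤ P.card / W := by
  refine (sum_le_card_nsmul _ _ (1 / (W : ℝ)) fun p hp => ?_).trans
    (le_of_eq (by rw [nsmul_eq_mul, mul_one_div]))
  exact one_div_le_one_div_of_le (by exact_mod_cast hW) (by exact_mod_cast h p hp)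

lemma Hs_block {j : ℕ} (hj : 1 ≤ j) : Hs (pr (10 ^ j) (10 ^ (j + 1))) ≤ 10 * (1 / j) := by
  have h1 := pow_card_le_prod (pr (10 ^ j) (10 ^ (j + 1))) (fun p => p) (10 ^ j)
    fun p hp => (mem_pr.1 hp).1.1.le
  have h2 : ∏ p ∈ pr (10 ^ j) (10 ^ (j + 1)), p ≤ primorial (10 ^ (j + 1)) :=
    prod_le_prod_of_subset_of_one_le' (fun p hp => mem_filter.2 ⟨mem_range.2
      (Nat.lt_succ_of_le (mem_pr.1 hp).1.2), pr_prime hp⟩) fun p hp _ => (mem_filter.1 hp).2.pos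
  have h3 := (h1.trans (h2.trans (primorial_le_four_pow _))).trans
    (Nat.pow_le_pow_left (show 4 ≤ 10 by norm_num) _)
  rw [← pow_mul, Nat.pow_le_pow_iff_right (by norm_num)] at h3
  have h4 : (j : ℝ) * (pr (10 ^ j) (10 ^ (j + 1))).card ≤ 10 ^ (j + 1) := by exact_mod_cast h3
  have hj' : (0 : ℝ) < j := by exact_mod_cast hj
  refine (Hs_le_card (W := 10 ^ j) (by positivity) fun p hp => (mem_pr.1 hp).1.1.le).trans ?_
  rw [mul_one_div, div_le_div_iff₀ (by positivity) hj']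
  push_cast
  rw [pow_succ (10 : ℝ)] at h4
  linarith

lemma Hs_lin {a : ℕ} (ha : 1 ≤ a) (d : ℕ) : Hs (pr (10 ^ a) (10 ^ (a + d))) ≤ 10 * d / a := by
  induction d with
  | zero => simp [pr, Hs]
  | succ d ih =>
    have ha' : (0 : ℝ) < a := by exact_mod_cast ha
    have h1 := Hs_block (j := a + d) (by omega)
    have h2 : 1 / ((a + d : ℕ) : ℝ) ≤ 1 / a :=
      one_div_le_one_div_of_le ha' (by exact_mod_cast Nat.le_add_right a d)
    refine (Hs_split _ (10 ^ (a + d)) _).trans ((add_le_add ih h1).trans ?_)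
    have e : (10 : ℝ) * (d + 1 : ℕ) / a = 10 * d / a + 10 * (1 / a) := by
      push_cast
      ring
    linarith

lemma Hs_log {a b : ℕ} (ha : 1 ≤ a) (hab : a ≤ b) :
    Hs (pr (10 ^ a) (10 ^ b)) ≤ 10 * (1 + Real.log (b / a)) := by
  have ha' : (1 : ℝ) ≤ a := by exact_mod_cast ha
  have key : Hs (pr (10 ^ a) (10 ^ b)) ≤ 10 * (1 / a - 1 / b + Real.log b - Real.log a) := by
    induction b, hab using Nat.le_induction with
    | base => simp [pr, Hs]
    | succ b hab ih =>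
      have hb : (0 : ℝ) < b := by exact_mod_cast (by omega : 0 < b)
      have h1 := Hs_block (j := b) (by omega)
      have h2 := Real.one_sub_inv_le_log_of_pos (x := (b + 1) / b) (by positivity)
      rw [Real.log_div (by positivity) hb.ne', inv_div] at h2
      have e : 1 - (b : ℝ) / (b + 1) = 1 / (b + 1) := by field_simp; ring
      refine (Hs_split _ (10 ^ b) _).trans ((add_le_add ih h1).trans ?_)
      push_cast
      linarith
  have hb : (0 : ℝ) < b := by exact_mod_cast (by omega : 0 < b)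
  have h1 : 1 / (a : ℝ) ≤ 1 := (div_le_one (by linarith)).2 ha'
  have h2 : 0 ≤ 1 / (b : ℝ) := by positivity
  rw [Real.log_div hb.ne' (by linarith)]
  linarith

lemma Hs_all {b : ℕ} (hb : 1 ≤ b) : Hs (pr 0 (10 ^ b)) ≤ 20 + 10 * Real.log b := by
  have h1 := Hs_log le_rfl hb
  have h2 := Hs_le_card (P := pr 0 (10 ^ 1)) (W := 1) one_pos fun p hp => (pr_prime hp).pos
  have h3 : ((pr 0 (10 ^ 1)).card : ℝ) ≤ 10 := by exact_mod_cast card_pr 0 (10 ^ 1)
  have h4 := Hs_split 0 (10 ^ 1) (10 ^ b)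
  simp only [Nat.cast_one, div_one] at h1 h2
  linarith

lemma Hs_harm {k : ℕ} (hk : 1 ≤ k) : Hs (Icc 1 (10 ^ k)) ≤ 4 * k := by
  have h1 := harmonic_le_one_add_log (10 ^ k)
  rw [harmonic_eq_sum_Icc] at h1
  push_cast at h1
  rw [Real.log_pow] at h1
  have h2 : Real.log 10 ≤ 3 := by
    rw [Real.log_le_iff_le_exp (by norm_num)]
    have h3 := Real.exp_one_gt_d9
    have h4 : Real.exp 3 = Real.exp 1 ^ 3 := by rw [← Real.exp_nat_mul]; norm_num
    rw [h4]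
    exact le_trans (by norm_num) (pow_le_pow_left₀ (by norm_num) h3.le 3)
  have hk' : (1 : ℝ) ≤ k := by exact_mod_cast hk
  simp only [Hs, one_div]
  nlinarith

end Pool.Agent.MP_760060_nt

end

section

/-! Exponential sums over digit strings and their reversals. -/

namespace Pool.Agent.MP_760060_nt

open Finset
open scoped ComplexConjugate

noncomputable def Phi (g : ℕ) (α β : ℂ) : ℂ := ∑ z ∈ range (10 ^ g), α ^ z * β ^ R g z

noncomputable def Dg (z : ℂ) : ℂ := ∑ d ∈ range 10, z ^ d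

noncomputable def kap : ℝ := 1 - 1 / 2000000

lemma Phi_add (a b : ℕ) (α β : ℂ) :
    Phi (a + b) α β = Phi a α (β ^ 10 ^ b) * Phi b (α ^ 10 ^ a) β := by
  rw [Phi, pow_add, sum_block, Phi, Phi, sum_mul_sum, sum_comm]
  refine sum_congr rfl fun x hx => sum_congr rfl fun y _ => ?_
  rw [R_add a b y (mem_range.1 hx), pow_add, pow_add, pow_mul, pow_mul]
  ring

lemma Phi_succ (g : ℕ) (α β : ℂ) :
    Phi (g + 1) α β = Dg (α * β ^ 10 ^ g) * Phi g (α ^ 10) β := by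
  rw [add_comm, Phi_add, pow_one, Phi, Dg, pow_one]
  congr 1
  refine sum_congr rfl fun d hd => ?_
  rw [R_one (mem_range.1 hd), mul_pow]

lemma pow_sub_one_le {z : ℂ} (hz : ‖z‖ = 1) (n : ℕ) : ‖z ^ n - 1‖ ≤ n * ‖z - 1‖ := by
  induction n with
  | zero => simp
  | succ n ih =>
    have e : z ^ (n + 1) - 1 = z * (z ^ n - 1) + (z - 1) := by ring
    rw [e]
    refine (norm_add_le _ _).trans ?_
    rw [norm_mul, hz]
    push_cast
    linarith

lemma geom_near {z : ℂ} (hz : ‖z‖ = 1) (n : ℕ) :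
    ‖∑ d ∈ range n, z ^ d - n‖ ≤ n * (n * ‖z - 1‖) := by
  have e : ∑ d ∈ range n, z ^ d - n = ∑ d ∈ range n, (z ^ d - 1) := by simp
  rw [e]
  refine (norm_sum_le _ _).trans ((sum_le_card_nsmul _ _ (n * ‖z - 1‖) fun d hd => ?_).trans ?_)
  · refine (pow_sub_one_le hz d).trans (mul_le_mul_of_nonneg_right ?_ (norm_nonneg _))
    exact_mod_cast (mem_range.1 hd).le
  · simp

lemma root_far {z : ℂ} {p : ℕ} (hp : p ≠ 0) (h : z ^ p = 1) (h1 : z ≠ 1) : 1 ≤ p * ‖z - 1‖ := by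
  have h2 := geom_near (Complex.norm_eq_one_of_pow_eq_one h hp) p
  have h3 : ∑ d ∈ range p, z ^ d = 0 := by
    have := geom_sum_mul z p
    rw [h, sub_self] at this
    exact (mul_eq_zero.1 this).resolve_right (sub_ne_zero.2 h1)
  have h4 : (0 : ℝ) < p := Nat.cast_pos.2 (Nat.pos_of_ne_zero hp)
  rw [h3, zero_sub, norm_neg, Complex.norm_natCast] at h2
  exact le_of_mul_le_mul_left (by rwa [mul_one]) h4

lemma grow {z : ℂ} (hz : ‖z‖ = 1) (h : ‖z - 1‖ ≤ 1 / 20) : 5 * ‖z - 1‖ ≤ ‖z ^ 10 - 1‖ := by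
  have h1 := geom_near hz 10
  have h2 := norm_sub_norm_le ((10 : ℕ) : ℂ) (∑ d ∈ range 10, z ^ d)
  rw [norm_sub_rev, Complex.norm_natCast] at h2
  rw [← geom_sum_mul, norm_mul]
  push_cast at h1 h2
  exact mul_le_mul_of_nonneg_right (by linarith) (norm_nonneg _)

lemma window {w : ℂ} {p l : ℕ} (hp : p ≠ 0) (h : w ^ p = 1) (h1 : w ≠ 1) (hl : p ≤ 10 ^ l) :
    ∃ j ≤ 2 * l, 1 / 20 ≤ ‖w ^ 10 ^ j - 1‖ := by
  by_contra hc
  push Not at hc
  have hw := Complex.norm_eq_one_of_pow_eq_one h hp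
  have key : ∀ j ≤ 2 * l, 5 ^ j * ‖w - 1‖ ≤ ‖w ^ 10 ^ j - 1‖ := by
    intro j hj
    induction j with
    | zero => simp
    | succ j ih =>
      have h2 := grow (z := w ^ 10 ^ j) (by rw [norm_pow, hw, one_pow]) (hc j (by omega)).le
      rw [← pow_mul, ← pow_succ] at h2
      have h3 := ih (by omega)
      rw [pow_succ]
      linarith
  have h2 := key _ le_rfl
  have h3 := hc _ le_rfl
  have h4 := root_far hp h h1
  have h5 : (p : ℝ) ≤ 5 ^ (2 * l) := by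
    rw [pow_mul]
    exact le_trans (b := 10 ^ l) (by exact_mod_cast hl)
      (pow_le_pow_left₀ (by norm_num) (by norm_num) l)
  have h6 := mul_le_mul_of_nonneg_right h5 (norm_nonneg (w - 1))
  linarith

lemma Dg_le {z : ℂ} (hz : ‖z‖ = 1) : ‖Dg z‖ ≤ 10 - ‖z - 1‖ ^ 2 / 4 := by
  have h1 := parallelogram_law_with_norm ℂ z 1
  rw [hz, norm_one] at h1
  have h2 : ‖z + 1‖ ≤ 2 - ‖z - 1‖ ^ 2 / 4 := by
    nlinarith [sq_nonneg (‖z + 1‖ - 2)]
  have e : Dg z = (z + 1) + ∑ d ∈ range 8, z ^ (d + 2) := by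
    simp only [Dg, sum_range_succ, sum_range_zero]
    ring
  have h3 : ‖∑ d ∈ range 8, z ^ (d + 2)‖ ≤ 8 := by
    refine (norm_sum_le _ _).trans ?_
    simp [hz]
  rw [e]
  exact (norm_add_le _ _).trans (by linarith)

lemma Dg_pair {A B : ℂ} (hA : ‖A‖ = 1) (hB : ‖B‖ = 1) (h : 1 / 20 ≤ ‖A ^ 10 - B‖) :
    ‖Dg A‖ * ‖Dg B‖ ≤ 100 * kap := by
  have h1 := pow_sub_one_le hA 10
  have h2 : ‖A ^ 10 - B‖ ≤ ‖A ^ 10 - 1‖ + ‖B - 1‖ := by
    refine le_trans (le_of_eq ?_) (norm_sub_le _ _)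
    congr 1
    ring
  push_cast at h1
  have a1 := Dg_le hA
  have a2 := Dg_le hB
  have a3 := sq_nonneg ‖A - 1‖
  have a4 := sq_nonneg ‖B - 1‖
  unfold kap
  rcases le_total (1 / 220) ‖A - 1‖ with h3 | h3
  · have h4 : (1 / 220 : ℝ) ^ 2 ≤ ‖A - 1‖ ^ 2 := pow_le_pow_left₀ (by norm_num) h3 2
    calc _ ≤ (10 - 1 / 200000) * 10 :=
          mul_le_mul (by linarith) (by linarith) (norm_nonneg _) (by norm_num)
      _ = _ := by norm_num
  · have h4 : (1 / 220 : ℝ) ^ 2 ≤ ‖B - 1‖ ^ 2 := pow_le_pow_left₀ (by norm_num) (by linarith) 2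
    calc _ ≤ 10 * (10 - 1 / 200000) :=
          mul_le_mul (by linarith) (by linarith) (norm_nonneg _) (by norm_num)
      _ = _ := by norm_num

/-- A uniform bound for the sums of length `g`. -/
def Bd (β : ℂ) (g : ℕ) (c : ℝ) : Prop := ∀ α : ℂ, ‖α‖ = 1 → ‖Phi g α β‖ ≤ 10 ^ g * c

lemma Bd.succ {β : ℂ} {g : ℕ} {c : ℝ} (h : Bd β g c) (hβ : ‖β‖ = 1) : Bd β (g + 1) c := by
  intro α hα
  have h1 := Dg_le (z := α * β ^ 10 ^ g) (by simp [hα, hβ])
  rw [Phi_succ, norm_mul, pow_succ' _ g, mul_assoc]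
  exact mul_le_mul (by nlinarith) (h _ (by simp [hα])) (norm_nonneg _) (by norm_num)

lemma Bd.mono {β : ℂ} {g g' : ℕ} {c : ℝ} (h : Bd β g c) (hβ : ‖β‖ = 1) (hg : g ≤ g') :
    Bd β g' c := by
  induction hg with
  | refl => exact h
  | step _ ih => exact ih.succ hβ

lemma Bd.two {β : ℂ} {g : ℕ} {c : ℝ} (h : Bd β g c) (hβ : ‖β‖ = 1)
    (hg : 1 / 20 ≤ ‖β ^ (99 * 10 ^ g) - 1‖) : Bd β (g + 2) (kap * c) := by
  intro α hα
  have hB : ‖α ^ 10 * β ^ 10 ^ g‖ = 1 := by simp [hα, hβ]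
  have h1 := Dg_pair (A := α * β ^ 10 ^ (g + 1)) (by simp [hα, hβ]) hB (by
    have e : (α * β ^ 10 ^ (g + 1)) ^ 10 - α ^ 10 * β ^ 10 ^ g =
        α ^ 10 * β ^ 10 ^ g * (β ^ (99 * 10 ^ g) - 1) := by
      rw [mul_pow, ← pow_mul, mul_sub, mul_assoc, ← pow_add, mul_one]
      congr 3
      ring
    rwa [e, norm_mul, hB, one_mul])
  rw [Phi_succ, Phi_succ, norm_mul, norm_mul, ← mul_assoc]
  refine (mul_le_mul h1 (h _ (by simp [hα])) (norm_nonneg _) (by unfold kap; norm_num)).trans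
    (le_of_eq (by ring))

lemma Bd_save {β : ℂ} {p l : ℕ} (hp : p ≠ 0) (h : β ^ p = 1) (h1 : ∀ j, β ^ (99 * 10 ^ j) ≠ 1)
    (hl : p ≤ 10 ^ l) (s : ℕ) : Bd β (s * (2 * l + 2)) (kap ^ s) := by
  have hβ := Complex.norm_eq_one_of_pow_eq_one h hp
  induction s with
  | zero =>
    intro α _
    simp [Phi, R]
  | succ s ih =>
    obtain ⟨j, hj, h2⟩ := window (w := β ^ (99 * 10 ^ (s * (2 * l + 2)))) hp
      (by rw [← pow_mul, mul_comm, pow_mul, h, one_pow]) (h1 _) hl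
    rw [← pow_mul, mul_assoc, ← pow_add] at h2
    rw [pow_succ']
    exact ((ih.mono hβ (Nat.le_add_right _ j)).two hβ h2).mono hβ (by rw [add_mul s 1]; omega)

lemma parseval {A : Type} [AddCommGroup A] [Fintype A] [DecidableEq A] (s : Finset ℕ) (f : ℕ → A)
    (w : ℕ → ℂ) (hw : ∀ x, ‖w x‖ = 1) (C : ℝ)
    (hC : ∀ x ∈ s, ((s.filter fun y => f x = f y).card : ℝ) ≤ C) :
    ∑ ψ : AddChar A ℂ, ‖∑ x ∈ s, ψ (f x) * w x‖ ^ 2 ≤ Fintype.card A * (s.card * C) := by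
  have e : ((∑ ψ : AddChar A ℂ, ‖∑ x ∈ s, ψ (f x) * w x‖ ^ 2 : ℝ) : ℂ) =
      ∑ x ∈ s, ∑ y ∈ s, w x * conj (w y) * if f x = f y then (Fintype.card A : ℂ) else 0 := by
    push_cast
    simp_rw [← Complex.mul_conj', map_sum, sum_mul_sum]
    rw [sum_comm]
    refine sum_congr rfl fun x _ => ?_
    rw [sum_comm]
    refine sum_congr rfl fun y _ => ?_
    simp only [← sub_eq_zero (a := f x)]
    rw [← AddChar.sum_apply_eq_ite, mul_sum]
    refine sum_congr rfl fun ψ _ => ?_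
    rw [sub_eq_add_neg, AddChar.map_add_eq_mul, AddChar.map_neg_eq_conj, map_mul]
    ring
  have e2 := congrArg (fun z : ℂ => ‖z‖) e
  simp only [Complex.norm_real, Real.norm_eq_abs] at e2
  refine (le_abs_self _).trans (e2.le.trans ((norm_sum_le _ _).trans ?_))
  refine (sum_le_card_nsmul _ _ (Fintype.card A * C) fun x hx => ?_).trans
    (le_of_eq (by rw [nsmul_eq_mul]; ring))
  refine (norm_sum_le _ _).trans (le_trans (le_of_eq ?_)
    (mul_le_mul_of_nonneg_left (hC x hx) (Nat.cast_nonneg _)))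
  rw [card_filter]
  push_cast
  rw [mul_sum]
  refine sum_congr rfl fun y _ => ?_
  split_ifs <;> simp [hw]

lemma card_mod {A Q : ℕ} (hQ : 0 < Q) (hA : Q ≤ A) (t : ℕ) :
    (((range A).filter fun y => t ≡ y [MOD Q]).card : ℝ) ≤ 2 * A / Q := by
  have h1 : ((range A).filter fun y => t ≡ y [MOD Q]).card ≤ (range (A / Q + 1)).card := by
    refine card_le_card_of_injOn (fun y => y / Q) (fun y hy => ?_) (fun y hy z hz h => ?_)
    · have := mem_range.1 (mem_filter.1 hy).1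
      exact mem_coe.2 (mem_range.2 (Nat.lt_succ_of_le (Nat.div_le_div_right this.le)))
    · have h2 : y % Q = z % Q := (mem_filter.1 hy).2.symm.trans (mem_filter.1 hz).2
      rw [← Nat.div_add_mod y Q, ← Nat.div_add_mod z Q, h2, show y / Q = z / Q from h]
  have hQ' : (0 : ℝ) < Q := by exact_mod_cast hQ
  have h2 : ((A / Q : ℕ) : ℝ) ≤ A / Q := Nat.cast_div_le
  have h3 : (1 : ℝ) ≤ A / Q := (one_le_div hQ').2 (by exact_mod_cast hA)
  have h4 : (((range A).filter fun y => t ≡ y [MOD Q]).card : ℝ) ≤ (A / Q : ℕ) + 1 := by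
    rw [card_range] at h1
    exact_mod_cast h1
  rw [mul_div_assoc]
  linarith

lemma chi_nat {Q : ℕ} (ψ : AddChar (ZMod Q) ℂ) (m : ℕ) : ψ m = ψ 1 ^ m := by
  rw [← AddChar.map_nsmul_eq_pow, nsmul_eq_mul, mul_one]

lemma Phi_sq {Q a u : ℕ} [NeZero Q] (hA : Q ≤ 10 ^ a) (hu : Q.Coprime u) {β : ℂ} (hβ : ‖β‖ = 1) :
    ∑ ψ : AddChar (ZMod Q) ℂ, ‖Phi a (ψ 1 ^ u) β‖ ^ 2 ≤ 2 * (10 ^ a) ^ 2 := by
  have hQ : (0 : ℝ) < Q := Nat.cast_pos.2 (NeZero.pos Q)
  have h := parseval (range (10 ^ a)) (fun x => ((u * x : ℕ) : ZMod Q)) (fun x => β ^ R a x)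
    (fun x => by simp [hβ]) (2 * (10 ^ a : ℕ) / Q) (fun x _ => by
      refine le_trans ?_ (card_mod (NeZero.pos Q) hA x)
      exact_mod_cast card_le_card (monotone_filter_right _ fun y _ hy =>
        Nat.ModEq.cancel_left_of_coprime hu ((ZMod.natCast_eq_natCast_iff _ _ _).1 hy)))
  simp only [chi_nat, pow_mul, ZMod.card, card_range] at h
  refine h.trans (le_of_eq ?_)
  push_cast
  field_simp

lemma twisted {Q a g : ℕ} (hQ : 0 < Q) (hA : Q ≤ 10 ^ a) (hc : Q.Coprime 10) {β : ℂ} (hβ : ‖β‖ = 1)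
    {c : ℝ} (hc0 : 0 ≤ c) (h : Bd β g c) (t : ℕ) :
    ‖∑ m ∈ (range (10 ^ (a + (a + g)))).filter fun m => t ≡ m [MOD Q], β ^ R (a + (a + g)) m‖ ≤
      2 * 10 ^ (a + (a + g)) / Q * c := by
  have : NeZero Q := ⟨hQ.ne'⟩
  have hQ' : (0 : ℝ) < Q := by exact_mod_cast hQ
  have e : (Q : ℂ) * ∑ m ∈ (range (10 ^ (a + (a + g)))).filter fun m => t ≡ m [MOD Q],
      β ^ R (a + (a + g)) m = ∑ ψ : AddChar (ZMod Q) ℂ, ψ (-t) * Phi (a + (a + g)) (ψ 1) β := by
    simp_rw [Phi, mul_sum]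
    rw [sum_comm, sum_filter]
    refine sum_congr rfl fun m _ => ?_
    simp_rw [← chi_nat, ← mul_assoc, ← AddChar.map_add_eq_mul]
    rw [← sum_mul, AddChar.sum_apply_eq_ite, ZMod.card]
    simp only [neg_add_eq_zero, ZMod.natCast_eq_natCast_iff, ite_mul, zero_mul]
  have e2 := congrArg (fun z : ℂ => ‖z‖) e
  simp only [norm_mul, Complex.norm_natCast] at e2
  rw [div_mul_eq_mul_div, le_div_iff₀' hQ', e2]
  have h1 := Phi_sq (u := 1) hA (Nat.coprime_one_right Q) (β := β ^ 10 ^ (a + g)) (by simp [hβ])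
  have h2 := Phi_sq (u := 10 ^ a) hA (Nat.Coprime.pow_right a hc) (β := β ^ 10 ^ g) (by simp [hβ])
  refine (norm_sum_le _ _).trans (le_trans (sum_le_sum (g := fun ψ : AddChar (ZMod Q) ℂ =>
    (‖Phi a (ψ 1 ^ 1) (β ^ 10 ^ (a + g))‖ ^ 2 + ‖Phi a (ψ 1 ^ 10 ^ a) (β ^ 10 ^ g)‖ ^ 2) / 2 *
      (10 ^ g * c)) fun ψ _ => ?_) ?_)
  · rw [norm_mul, AddChar.norm_apply, one_mul, Phi_add, Phi_add, norm_mul, norm_mul, pow_one,
      ← mul_assoc]
    refine mul_le_mul ?_ (h _ (by simp)) (norm_nonneg _) (by positivity)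
    nlinarith [sq_nonneg (‖Phi a (ψ 1) (β ^ 10 ^ (a + g))‖ - ‖Phi a (ψ 1 ^ 10 ^ a) (β ^ 10 ^ g)‖)]
  · rw [← sum_mul, ← sum_div, sum_add_distrib]
    calc _ ≤ (2 * (10 ^ a) ^ 2 + 2 * (10 ^ a) ^ 2) / 2 * (10 ^ g * c) := by gcongr
      _ = _ := by ring

/-- A residue class for the number and a prime divisor of its reversal. -/
lemma joint {Q a g p l s : ℕ} (hQ : 0 < Q) (hA : Q ≤ 10 ^ a) (hc : Q.Coprime 10) (hp : p.Prime)
    (h11 : 11 < p) (hl : p ≤ 10 ^ l) (hg : s * (2 * l + 2) ≤ g) (t : ℕ) :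
    (((range (10 ^ (a + (a + g)))).filter fun m => t ≡ m [MOD Q] ∧ p ∣ R (a + (a + g)) m).card : ℝ)
      ≤ 2 * 10 ^ (a + (a + g)) / Q * (1 / p + kap ^ s) := by
  have := Fact.mk hp
  have hp' : (0 : ℝ) < p := by exact_mod_cast hp.pos
  have hk : 0 ≤ kap ^ s := pow_nonneg (by unfold kap; norm_num) s
  set k := a + (a + g) with hkdef
  have e : (p : ℂ) * (((range (10 ^ k)).filter fun m => t ≡ m [MOD Q] ∧ p ∣ R k m).card : ℂ) =
      ∑ χ : AddChar (ZMod p) ℂ, ∑ m ∈ (range (10 ^ k)).filter fun m => t ≡ m [MOD Q],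
        χ 1 ^ R k m := by
    rw [sum_comm, ← filter_filter, card_filter]
    push_cast
    rw [mul_sum]
    refine sum_congr rfl fun m _ => ?_
    simp_rw [← chi_nat]
    rw [AddChar.sum_apply_eq_ite, ZMod.card]
    simp only [ZMod.natCast_eq_zero_iff, mul_ite, mul_one, mul_zero]
  have e2 := congrArg (fun z : ℂ => ‖z‖) e
  simp only [norm_mul, Complex.norm_natCast] at e2
  refine le_of_mul_le_mul_left ?_ hp'
  rw [e2]
  refine (norm_sum_le _ _).trans (le_trans (sum_le_sum (g := fun χ : AddChar (ZMod p) ℂ =>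
    2 * 10 ^ k / Q * ((if χ = 1 then 1 else 0) + kap ^ s)) fun χ _ => ?_) (le_of_eq ?_))
  · split_ifs with h1
    · have h2 := card_mod hQ (hA.trans (Nat.pow_le_pow_right (by norm_num)
        (Nat.le_add_right a (a + g)))) t
      simp only [h1, AddChar.one_apply, one_pow, sum_const, nsmul_eq_mul, mul_one,
        Complex.norm_natCast]
      push_cast at h2
      exact h2.trans (le_mul_of_one_le_right (by positivity) (by linarith))
    · rw [zero_add]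
      have h2 : χ 1 ^ p = 1 := by rw [← chi_nat, ZMod.natCast_self, AddChar.map_zero_eq_one]
      refine twisted hQ hA hc (AddChar.norm_apply _ _) hk
        ((Bd_save hp.ne_zero h2 (fun j hj => ?_) hl s).mono (AddChar.norm_apply _ _) hg) t
      rw [← chi_nat, (AddChar.IsPrimitive.of_ne_one h1).zmod_char_eq_one_iff,
        ZMod.natCast_eq_zero_iff] at hj
      rcases (Nat.Prime.dvd_mul hp).1 hj with h3 | h3
      · rcases (Nat.Prime.dvd_mul hp).1 (show p ∣ 9 * 11 from h3) with h4 | h4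
        · have := Nat.le_of_dvd (by norm_num) h4
          omega
        · have := Nat.le_of_dvd (by norm_num) h4
          omega
      · have := Nat.le_of_dvd (by norm_num) (hp.dvd_of_dvd_pow h3)
        omega
  · rw [← mul_sum, sum_add_distrib, sum_ite_eq', if_pos (mem_univ _), sum_const, card_univ,
      AddChar.card_eq, ZMod.card, nsmul_eq_mul]
    field_simp

end Pool.Agent.MP_760060_nt

end

section

/-! The exceptional events and their frequencies. -/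

namespace Pool.Agent.MP_760060_nt

open Finset

def Sq (D m : ℕ) : Prop := m ≠ 0 ∧ ∃ b, D < b ∧ b ^ 2 ∣ m

def Same (P : Finset ℕ) (m : ℕ) : Prop :=
  m ≠ 0 ∧ ∃ p ∈ P, ∃ q, q.Prime ∧ p ∣ m ∧ q ∣ m ∧ p ∣ q - 1

def Mid (a b m : ℕ) : Prop := m ≠ 0 ∧ ∃ q ∈ pr (10 ^ a) (10 ^ b), q ∣ m

def Jnt (k a b : ℕ) (P : Finset ℕ) (m : ℕ) : Prop :=
  m ≠ 0 ∧ ∃ p ∈ P, p ∣ R k m ∧
    (p ∣ m ∨ ∃ q, q.Prime ∧ q ∣ m ∧ p ∣ q - 1 ∧ (q ≤ 10 ^ a ∨ 10 ^ b < q))

lemma pred_eq {p q : ℕ} (hq : q.Prime) (h : p ∣ q - 1) (hp : p.Prime) :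
    ∃ j, 1 ≤ j ∧ j ≤ q ∧ q = p * j + 1 := by
  obtain ⟨j, hj⟩ := h
  have h2 := hq.two_le
  have h3 := Nat.le_mul_of_pos_left j hp.pos
  refine ⟨j, Nat.pos_of_ne_zero ?_, by omega, by omega⟩
  rintro rfl
  omega

lemma Hs_sq {k : ℕ} (hk : 1 ≤ k) {P : Finset ℕ} (hP : ∀ p ∈ P, 1 ≤ p ∧ p ≤ 10 ^ k) :
    ∑ p ∈ P, ∑ j ∈ Icc (1 : ℕ) (10 ^ k), (1 : ℝ) / p * (1 / j) ≤ 16 * k ^ 2 := by
  rw [← sum_mul_sum]
  have h1 := Hs_harm hk
  have h2 : Hs P ≤ 4 * k := (Hs_mono fun p hp => mem_Icc.2 (hP p hp)).trans h1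
  exact (mul_le_mul h2 h1 (Hs_nonneg _) (by positivity)).trans (le_of_eq (by ring))

lemma cnt_same {k W : ℕ} (hk : 1 ≤ k) (hW : 0 < W) {P : Finset ℕ}
    (hP : ∀ p ∈ P, p.Prime ∧ W < p ∧ p ≤ 10 ^ k) :
    cnt (10 ^ k) (Same P) ≤ 10 ^ k / W * (16 * k ^ 2) := by
  refine (cnt_union (P ×ˢ Icc 1 (10 ^ k))
    (fun i m => m ≠ 0 ∧ i.1 * (i.1 * i.2 + 1) ∣ m) ?_).trans ?_
  · rintro m hm ⟨h0, p, hp, q, hq, h1, h2, h3⟩
    obtain ⟨j, j1, j2, rfl⟩ := pred_eq hq h3 (hP p hp).1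
    have := Nat.le_of_dvd (Nat.pos_of_ne_zero h0) h2
    refine ⟨(p, j), mem_product.2 ⟨hp, mem_Icc.2 ⟨j1, by omega⟩⟩, h0, ?_⟩
    exact Nat.Coprime.mul_dvd_of_dvd_of_dvd (by simp) h1 h2
  refine le_trans ?_ (mul_le_mul_of_nonneg_left
    (Hs_sq hk fun p hp => ⟨(hP p hp).1.pos, (hP p hp).2.2⟩) (by positivity))
  rw [← sum_product' (f := fun p j : ℕ => (1 : ℝ) / p * (1 / j)), mul_sum]
  refine sum_le_sum fun i hi => (cnt_dvd0 _ _).trans ?_
  obtain ⟨h1, h2⟩ := mem_product.1 hi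
  have a1 : (0 : ℝ) < W := by exact_mod_cast hW
  have a2 : (W : ℝ) ≤ i.1 := by exact_mod_cast (hP _ h1).2.1.le
  have a3 : (0 : ℝ) < i.2 := by exact_mod_cast (mem_Icc.1 h2).1
  have a4 : (0 : ℝ) < i.1 := a1.trans_le a2
  have e : (10 : ℝ) ^ k / W * (1 / i.1 * (1 / i.2)) = 10 ^ k / (W * (i.1 * i.2)) := by
    field_simp
  rw [e]
  push_cast
  gcongr
  linarith

lemma cnt_mid (X : ℕ) {a : ℕ} (ha : 1 ≤ a) (d : ℕ) :
    cnt X (Mid a (a + d)) ≤ X * (10 * d / a) := by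
  refine (cnt_union (pr (10 ^ a) (10 ^ (a + d))) (fun q m => m ≠ 0 ∧ q ∣ m) ?_).trans ?_
  · rintro m _ ⟨h0, q, hq, h1⟩
    exact ⟨q, hq, h0, h1⟩
  refine le_trans ?_ (mul_le_mul_of_nonneg_left (Hs_lin ha d) (Nat.cast_nonneg _))
  rw [Hs, mul_sum]
  exact sum_le_sum fun q _ => (cnt_dvd0 _ _).trans (le_of_eq (mul_one_div _ _).symm)

lemma jb {a g p l s u Q : ℕ} {θ : ℝ} (hp : p.Prime) (h11 : 11 < p) (hl : p ≤ 10 ^ l)
    (hg : s * (2 * l + 2) ≤ g) (h1 : 1 / (p : ℝ) ≤ θ) (h2 : kap ^ s ≤ θ) (hu : 1 ≤ u)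
    (hQ : p * u ≤ Q) (t : ℕ) :
    cnt (10 ^ (a + (a + g))) (fun m => (Q ≤ 10 ^ a ∧ Q.Coprime 10) ∧ t ≡ m [MOD Q] ∧
      p ∣ R (a + (a + g)) m) ≤ 4 * 10 ^ (a + (a + g)) * θ * (1 / p * (1 / u)) := by
  have hθ : 0 ≤ θ := le_trans (by positivity) h1
  by_cases hc : Q ≤ 10 ^ a ∧ Q.Coprime 10
  · have h0 : 0 < p * u := Nat.mul_pos hp.pos hu
    refine (cnt_mono fun m _ h => h.2).trans ?_
    rw [cnt_eq]
    refine (joint (h0.trans_le hQ) hc.1 hc.2 hp h11 hl hg t).trans ?_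
    have a1 : (0 : ℝ) < p * u := by exact_mod_cast h0
    have a2 : (p : ℝ) * u ≤ Q := by exact_mod_cast hQ
    have hk : 0 ≤ kap ^ s := pow_nonneg (by unfold kap; norm_num) s
    calc _ ≤ 2 * 10 ^ (a + (a + g)) / ((p : ℝ) * u) * (θ + θ) := by gcongr
      _ = _ := by ring
  · refine le_trans (le_of_eq (sum_eq_zero fun m _ => if_neg fun h => hc h.1)) (by positivity)

/-- Zero and the numbers `2 ^ i * 5 ^ j`. -/
def Cs (k : ℕ) : Finset ℕ :=
  insert 0 ((range (4 * k) ×ˢ range (4 * k)).image fun i => 2 ^ i.1 * 5 ^ i.2)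

lemma card_Cs {k : ℕ} (hk : 1 ≤ k) : (Cs k).card ≤ 17 * k ^ 2 := by
  refine (card_insert_le _ _).trans ((Nat.add_le_add_right card_image_le 1).trans ?_)
  rw [card_product, card_range]
  nlinarith

lemma ten_part {k s : ℕ} (h0 : s ≠ 0) (hs : s < 10 ^ k) :
    ∃ c ∈ Cs k, ∃ u, 1 ≤ u ∧ u.Coprime 10 ∧ s = c * u := by
  obtain ⟨i, s1, h1, e1⟩ := Nat.exists_eq_pow_mul_and_not_dvd h0 2 (by norm_num)
  have h0' : s1 ≠ 0 := by rintro rfl; simp at h1
  obtain ⟨j, u, h2, e2⟩ := Nat.exists_eq_pow_mul_and_not_dvd h0' 5 (by norm_num)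
  have e : s = 2 ^ i * 5 ^ j * u := by rw [e1, e2, mul_assoc]
  have hb : s < 2 ^ (4 * k) := by
    rw [pow_mul]
    exact hs.trans_le (Nat.pow_le_pow_left (by norm_num) k)
  have hi : 2 ^ i ≤ s := Nat.le_of_dvd (Nat.pos_of_ne_zero h0) ⟨s1, e1⟩
  have hj : 2 ^ j ≤ s := (Nat.pow_le_pow_left (show 2 ≤ 5 by norm_num) j).trans
    (Nat.le_of_dvd (Nat.pos_of_ne_zero h0) ⟨2 ^ i * u, by rw [e]; ring⟩)
  refine ⟨2 ^ i * 5 ^ j, mem_insert_of_mem (mem_image.2 ⟨(i, j), mem_product.2 ⟨mem_range.2 ?_,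
    mem_range.2 ?_⟩, rfl⟩), u, Nat.pos_of_ne_zero ?_, ?_, e⟩
  · exact (Nat.pow_lt_pow_iff_right (by norm_num)).1 (hi.trans_lt hb)
  · exact (Nat.pow_lt_pow_iff_right (by norm_num)).1 (hj.trans_lt hb)
  · rintro rfl
    simp at h2
  · refine Nat.Coprime.mul_right (m := 2) (n := 5) ?_ ?_
    · exact ((Nat.Prime.coprime_iff_not_dvd Nat.prime_two).2 fun h =>
        h1 (e2 ▸ h.mul_left _)).symm
    · exact ((Nat.Prime.coprime_iff_not_dvd Nat.prime_five).2 h2).symm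

lemma cop_ten {p : ℕ} (hp : p.Prime) (h : 5 < p) : p.Coprime 10 :=
  (Nat.Prime.coprime_iff_not_dvd hp).2 (not_dvd_ten hp (by omega) (by omega))

lemma cnt_jnt {a g l s W : ℕ} {θ : ℝ} (ha : 1 ≤ a) (hla : l ≤ a) (hW : 11 ≤ W) {P : Finset ℕ}
    (hP : ∀ p ∈ P, p.Prime ∧ W < p ∧ p ≤ 10 ^ l) (hg : s * (2 * l + 2) ≤ g)
    (h1 : 1 / (W : ℝ) ≤ θ) (h2 : kap ^ s ≤ θ) :
    cnt (10 ^ (a + (a + g))) (Jnt (a + (a + g)) a (a + (g + l)) P) ≤
      10 ^ (a + (a + g)) * (2176 * (a + (a + g) : ℕ) ^ 4 * θ) := by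
  set k := a + (a + g) with hk
  have hk1 : 1 ≤ k := by omega
  have hθ : 0 ≤ θ := le_trans (by positivity) h1
  have hpow : 10 ^ l ≤ 10 ^ a := Nat.pow_le_pow_right (by norm_num) hla
  refine (cnt_union ((P ×ˢ Icc 1 (10 ^ k)) ×ˢ (Cs k ×ˢ range 2))
    (fun i m => (i.1.1 * i.1.2 + i.2.2 ≤ 10 ^ a ∧ (i.1.1 * i.1.2 + i.2.2).Coprime 10) ∧
      i.2.1 * i.1.2 ≡ m [MOD i.1.1 * i.1.2 + i.2.2] ∧ i.1.1 ∣ R k m) ?_).trans ?_
  · rintro m hm ⟨h0, p, hp, hR, h⟩
    obtain ⟨p1, p2, p3⟩ := hP p hp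
    rcases h with h | ⟨q, hq, h3, h4, h5⟩
    · refine ⟨((p, 1), (0, 0)), by simp [hp, Cs, Nat.one_le_pow], ?_, ?_, hR⟩
      · simpa using ⟨p3.trans hpow, cop_ten p1 (by omega)⟩
      · simpa using (Nat.modEq_zero_iff_dvd.2 h).symm
    obtain ⟨j, j1, j2, e⟩ := pred_eq hq h4 p1
    have hqm := Nat.le_of_dvd (Nat.pos_of_ne_zero h0) h3
    have hpq := Nat.le_mul_of_pos_right p j1
    rcases h5 with h5 | h5
    · refine ⟨((p, j), (0, 1)), ?_, ?_, ?_, hR⟩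
      · simp only [mem_product, hp, mem_Icc, j1, Cs, mem_insert, true_or, mem_range, true_and]
        omega
      · simp only [← e]
        exact ⟨h5, cop_ten hq (by omega)⟩
      · simp only [← e, zero_mul]
        exact (Nat.modEq_zero_iff_dvd.2 h3).symm
    · obtain ⟨s', rfl⟩ := h3
      have hs0 : s' ≠ 0 := by rintro rfl; simp at h0
      have hs1 : s' ≤ q * s' := Nat.le_mul_of_pos_left _ hq.pos
      obtain ⟨c, hc, u, u1, u2, e2⟩ := ten_part hs0 (hs1.trans_lt hm)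
      have hu : u ≤ s' := Nat.le_of_dvd (Nat.pos_of_ne_zero hs0) ⟨c, by rw [e2, mul_comm]⟩
      have h6 : 10 ^ l * s' ≤ 10 ^ a := by
        have h7 : 10 ^ (a + g) * (10 ^ l * s') ≤ 10 ^ (a + g) * 10 ^ a := by
          calc 10 ^ (a + g) * (10 ^ l * s') = 10 ^ (a + (g + l)) * s' := by ring
            _ ≤ q * s' := Nat.mul_le_mul_right _ h5.le
            _ ≤ 10 ^ k := hm.le
            _ = _ := by rw [hk]; ring
        exact Nat.le_of_mul_le_mul_left h7 (by positivity)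
      refine ⟨((p, u), (c, 0)), ?_, ?_, ?_, hR⟩
      · simp only [mem_product, hp, mem_Icc, u1, hc, mem_range, true_and]
        omega
      · exact ⟨(Nat.mul_le_mul p3 hu).trans h6,
          Nat.Coprime.mul_left (cop_ten (p := p) p1 (by omega)) u2⟩
      · show c * u ≡ q * s' [MOD p * u]
        rw [e, e2, show (p * j + 1) * (c * u) = c * u + p * u * (j * c) by ring]
        exact (Nat.modEq_iff_dvd' (Nat.le_add_right _ _)).2 (by simp)
  refine (sum_le_sum (g := fun i => 4 * 10 ^ k * θ * (1 / (i.1.1 : ℝ) * (1 / i.1.2)))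
    fun i hi => ?_).trans ?_
  · obtain ⟨h3, h4⟩ := mem_product.1 (mem_product.1 hi).1
    obtain ⟨p1, p2, p3⟩ := hP _ h3
    refine jb p1 (by omega) p3 hg (le_trans ?_ h1) h2 (mem_Icc.1 h4).1 (Nat.le_add_right _ _) _
    exact one_div_le_one_div_of_le (by exact_mod_cast (by omega : 0 < W)) (by exact_mod_cast p2.le)
  · rw [sum_product]
    simp only [sum_const, card_product, card_range, nsmul_eq_mul]
    rw [← mul_sum, ← mul_sum, sum_product' (f := fun p u : ℕ => (1 : ℝ) / p * (1 / u))]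
    have b1 := Hs_sq hk1 (P := P) fun p hp => ⟨(hP p hp).1.pos, (hP p hp).2.2.trans
      (Nat.pow_le_pow_right (by norm_num) (by omega))⟩
    have b2 : ((Cs k).card : ℝ) ≤ 17 * k ^ 2 := by exact_mod_cast card_Cs hk1
    push_cast [-Nat.cast_add]
    calc _ ≤ 17 * (k : ℝ) ^ 2 * 2 * (4 * 10 ^ k * θ * (16 * k ^ 2)) := by gcongr
      _ = _ := by ring

def Bad (k a b D Y : ℕ) (P : Finset ℕ) (t0 t1 : ℝ) (m : ℕ) : Prop :=
  m = 0 ∨ Sq D m ∨ t0 ≤ |(om (pr 0 Y) m : ℝ) - Hs (pr 0 Y)| ∨ t1 ≤ |(om P m : ℝ) - Hs P| ∨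
    Same P m ∨ Mid a b m ∨ Jnt k a b P m

lemma flex_of {k a b D Y n r : ℕ} {P : Finset ℕ} {t0 t1 : ℝ} (hr : R k r = n)
    (hP : ∀ p ∈ P, p.Prime ∧ k < p ∧ 5 < p ∧ D < p ∧ ¬ p ^ 2 ∣ 10 ^ (p - 1) - 1 ∧ ¬ p ∣ 10 ^ k - 1)
    (h1 : ¬ Bad k a b D Y P t0 t1 n) (h2 : ¬ Bad k a b D Y P t0 t1 r) :
    ∀ p ∈ P.filter (· ∣ n), Flex k n r p := by
  intro p hp
  obtain ⟨hp, hn⟩ := mem_filter.1 hp
  obtain ⟨p1, p2, p3, p4, p5, p6⟩ := hP p hp
  simp only [Bad, not_or] at h1 h2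
  obtain ⟨a0, a1, -, -, a2, -, -⟩ := h1
  obtain ⟨b0, -, -, -, -, b1, b2⟩ := h2
  refine ⟨p1, p2, p3, p5, p6, hn, fun h => a1 ⟨a0, p, p4, h⟩,
    fun h => b2 ⟨b0, p, hp, hr ▸ hn, Or.inl h⟩, fun q hq h h' => ?_⟩
  rcases (Nat.Prime.dvd_mul hq).1 h with h | h
  · exact a2 ⟨a0, p, hp, q, hq, hn, h, h'⟩
  · refine b2 ⟨b0, p, hp, hr ▸ hn, Or.inr ⟨q, hq, h, h', ?_⟩⟩
    by_contra hc
    push Not at hc
    exact b1 ⟨b0, q, mem_pr.2 ⟨hc, hq⟩, h⟩

lemma balance {k a b D Y n r : ℕ} {P : Finset ℕ} {t0 t1 : ℝ} (hr : r < Y ^ 3)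
    (ht : 2 * t0 + 2 * D ^ 2 + 9 + t1 ≤ Hs P)
    (h1 : ¬ Bad k a b D Y P t0 t1 n) (h2 : ¬ Bad k a b D Y P t0 t1 r) :
    Om r + 7 ≤ Om n + (P.filter (· ∣ n)).card := by
  simp only [Bad, not_or, not_le, abs_lt] at h1 h2
  obtain ⟨a0, -, a1, a2, -⟩ := h1
  obtain ⟨b0, b1, b2, -⟩ := h2
  have c1 : (om (pr 0 Y) n : ℝ) ≤ Om n := by
    exact_mod_cast om_le_Om (pr 0 Y) (fun _ => pr_prime) a0
  have c2 : (Om r : ℝ) ≤ om (pr 0 Y) r + 2 * (D * D) + 2 := by
    exact_mod_cast Om_le_om b0 hr fun b h3 h4 => b1 ⟨b0, b, h3, h4⟩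
  have c3 : (Om r : ℝ) + 7 ≤ Om n + om P n := by nlinarith [a1.1, a2.1, b2.2]
  exact_mod_cast c3

lemma cnt_T {k a b D Y : ℕ} {P : Finset ℕ} {t0 t1 : ℝ} (hY : 10 ^ (k + 1) ≤ Y ^ 3)
    (hP : ∀ p ∈ P, p.Prime ∧ k + 1 < p ∧ 5 < p ∧ D < p ∧ ¬ p ^ 2 ∣ 10 ^ (p - 1) - 1 ∧
      ¬ p ∣ 10 ^ (k + 1) - 1) (ht : 2 * t0 + 2 * D ^ 2 + 9 + t1 ≤ Hs P) :
    cnt (10 ^ (k + 1)) (fun n => 10 ^ k ≤ n ∧ n ∈ T) ≤
      2 * cnt (10 ^ (k + 1)) (Bad (k + 1) a b D Y P t0 t1) := by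
  rw [two_mul]
  refine (cnt_mono (B := fun n => Bad (k + 1) a b D Y P t0 t1 n ∨
    Bad (k + 1) a b D Y P t0 t1 (R (k + 1) n)) fun n hn h => ?_).trans
    ((cnt_or _ _ _).trans (le_of_eq (by rw [cnt_R])))
  by_contra hc
  rw [not_or] at hc
  exact not_mem_T h.1 hn _ _ (flex_of (R_R hn) hP hc.1 hc.2) (flex_of rfl hP hc.2 hc.1)
    (balance ((R_lt _ _).trans_le hY) ht hc.1 hc.2) (balance (hn.trans_le hY) ht hc.2 hc.1) h.2

end Pool.Agent.MP_760060_nt

end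

section

/-! The numbers with a given number of digits. -/

namespace Pool.Agent.MP_760060_nt

open Finset

lemma sq_le_two_pow {n : ℕ} (h : 6 ≤ n) : (n + 1) ^ 2 ≤ 2 ^ n := by
  induction n, h using Nat.le_induction with
  | base => norm_num
  | succ n h ih =>
    rw [pow_succ 2]
    nlinarith

lemma log_le_sqrt {x : ℝ} (hx : 0 < x) : Real.log x ≤ 2 * √x := by
  have h1 := Real.log_le_sub_one_of_pos (Real.sqrt_pos.2 hx)
  rw [Real.log_sqrt hx.le] at h1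
  linarith

/-- The choice of the block lengths. -/
lemma params (D : ℕ) (hD : 1 ≤ D) : ∃ k0, ∀ k, k0 ≤ k → ∃ a g l s u : ℕ, k = a + (a + g) ∧
    1 ≤ l ∧ 1 ≤ u ∧ s * (2 * l + 2) ≤ g ∧ 10 * D * (g + l) ≤ a ∧ kap ^ s ≤ 1 / (k : ℝ) ^ 5 ∧
    k ^ 5 ≤ 10 ^ (5 * u) ∧ k ≤ 2 * u ^ 2 * l ∧ (u : ℝ) ≤ 1 + 2 * Real.log k := by
  obtain ⟨C, hC⟩ := exists_pow_lt_of_lt_one (x := (1 / 32 : ℝ)) (y := kap) (by norm_num)
    (by unfold kap; norm_num)
  refine ⟨2 ^ (6 + 40 * D * (4 * C + 2)), fun k hk => ?_⟩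
  have hk0 : k ≠ 0 := by
    have : 0 < 2 ^ (6 + 40 * D * (4 * C + 2)) := by positivity
    omega
  have h1 : 6 + 40 * D * (4 * C + 2) ≤ Nat.log 2 k := Nat.le_log_of_pow_le (by norm_num) hk
  have h2 : 2 ^ Nat.log 2 k ≤ k := Nat.pow_log_le_self 2 hk0
  have h3 : k < 2 ^ (Nat.log 2 k + 1) := Nat.lt_pow_succ_log_self (by norm_num) k
  have h4 := (sq_le_two_pow (n := Nat.log 2 k) (by omega)).trans h2
  have h5 : (Nat.log 2 k : ℝ) ≤ 2 * Real.log k := by
    have a1 : (2 : ℝ) ^ Nat.log 2 k ≤ k := by exact_mod_cast h2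
    have a2 := Real.log_le_log (by positivity) a1
    rw [Real.log_pow] at a2
    have a3 := Real.log_two_gt_d9
    have a4 : (0 : ℝ) ≤ Nat.log 2 k := Nat.cast_nonneg _
    nlinarith
  obtain ⟨u, hu⟩ : ∃ u, u = Nat.log 2 k + 1 := ⟨_, rfl⟩
  rw [← hu] at h3 h4
  have u0 : 0 < u ^ 2 := pow_pos (by omega) 2
  obtain ⟨l, hl⟩ : ∃ l, l = k / u ^ 2 := ⟨_, rfl⟩
  have l1 : 1 ≤ l := hl ▸ Nat.div_pos h4 u0
  have l2 : l * u ^ 2 ≤ k := hl ▸ Nat.div_mul_le_self _ _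
  have l3 : k < l * u ^ 2 + u ^ 2 := hl ▸ Nat.lt_div_mul_add u0
  obtain ⟨Z, hZ⟩ : ∃ Z, Z = C * u * (2 * l + 2) := ⟨_, rfl⟩
  have z1 : Z + 1 + l ≤ (4 * C + 2) * (u * l) := by
    have b1 : Z ≤ C * u * (4 * l) := hZ ▸ Nat.mul_le_mul_left _ (by omega)
    have b2 : l ≤ u * l := Nat.le_mul_of_pos_left _ (by omega)
    nlinarith
  have z2 : 40 * D * (Z + 1 + l) ≤ k := by
    calc 40 * D * (Z + 1 + l) ≤ 40 * D * ((4 * C + 2) * (u * l)) := Nat.mul_le_mul_left _ z1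
      _ = 40 * D * (4 * C + 2) * (u * l) := by ring
      _ ≤ u * (u * l) := Nat.mul_le_mul_right _ (by omega)
      _ = l * u ^ 2 := by ring
      _ ≤ k := l2
  have z3 : 40 * (Z + 1 + l) ≤ k := le_trans (by nlinarith) z2
  refine ⟨(k - Z) / 2, k - 2 * ((k - Z) / 2), l, C * u, u, by omega, l1, by omega, by omega, ?_,
    ?_, ?_, by nlinarith, ?_⟩
  · have b1 : 40 * D * (k - 2 * ((k - Z) / 2) + l) ≤ 40 * D * (Z + 1 + l) :=
      Nat.mul_le_mul_left _ (by omega)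
    have b2 : 40 * D * (k - 2 * ((k - Z) / 2) + l) = 4 * (10 * D * (k - 2 * ((k - Z) / 2) + l)) := by
      ring
    omega
  · have b1 : (k : ℝ) ≤ 2 ^ u := by exact_mod_cast h3.le
    have b0 : (0 : ℝ) < k := by exact_mod_cast Nat.pos_of_ne_zero hk0
    rw [pow_mul]
    refine (pow_le_pow_left₀ (pow_nonneg (by unfold kap; norm_num) _) hC.le u).trans ?_
    rw [one_div_pow]
    refine one_div_le_one_div_of_le (by positivity) ((pow_le_pow_left₀ b0.le b1 5).trans ?_)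
    rw [← pow_mul, mul_comm, pow_mul]
    norm_num
  · rw [mul_comm, pow_mul]
    exact Nat.pow_le_pow_left (h3.le.trans (Nat.pow_le_pow_left (by norm_num) u)) 5
  · rw [hu]
    push_cast
    linarith

/-- The primes that are used. -/
def PP (k l : ℕ) : Finset ℕ :=
  (pr (k ^ 5) (10 ^ l)).filter fun p => ¬ p ^ 2 ∣ 10 ^ (p - 1) - 1 ∧ ¬ p ∣ 10 ^ k - 1

lemma Hs_div {k : ℕ} (hk : 2 ≤ k) : Hs ((10 ^ k - 1).primeFactors.filter (k ^ 5 < ·)) ≤ 1 := by
  have h1 := pow_card_le_prod (10 ^ k - 1).primeFactors (fun p => p) 2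
    fun p hp => (Nat.prime_of_mem_primeFactors hp).two_le
  have h2 := Nat.le_of_dvd (Nat.pos_of_ne_zero (ten_ne (by omega : k ≠ 0)))
    (Nat.prod_primeFactors_dvd (10 ^ k - 1))
  have h3 : 10 ^ k ≤ 2 ^ (4 * k) := by
    rw [pow_mul]
    exact Nat.pow_le_pow_left (by norm_num) k
  have h4 : (10 ^ k - 1).primeFactors.card ≤ 4 * k :=
    (Nat.pow_le_pow_iff_right (show 1 < 2 by norm_num)).1
      (h1.trans (h2.trans ((Nat.sub_le _ _).trans h3)))
  have h5 : 4 * k ≤ k ^ 5 := by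
    have := Nat.pow_le_pow_left hk 4
    rw [pow_succ]
    exact Nat.mul_le_mul_right _ (by omega)
  have h0 : 0 < k ^ 5 := by positivity
  refine (Hs_le_card h0 fun p hp => (mem_filter.1 hp).2.le).trans ?_
  rw [div_le_one (by exact_mod_cast h0)]
  exact_mod_cast (card_filter_le _ _).trans (h4.trans h5)

lemma NW_le {k l u M : ℕ} (hk : 3 ≤ k) (hl : 1 ≤ l) (hlk : l ≤ k) (hu : 1 ≤ u)
    (h1 : k ^ 5 ≤ 10 ^ (5 * u)) (h2 : k ≤ 2 * u ^ 2 * l) (h3 : (u : ℝ) ≤ 1 + 2 * Real.log k)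
    (hL : 1 ≤ Real.log k) (hM : M ≤ 10 ^ (2 * k)) :
    NW M ≤ Hs (PP k l) + 221 * √(Real.log k) := by
  have s1 : NW M ≤ Hs (PP k l ∪ (pr 0 (10 ^ (5 * u)) ∪
      ((10 ^ k - 1).primeFactors.filter (k ^ 5 < ·) ∪ pr (10 ^ l) (10 ^ (2 * k))))) := by
    refine Hs_mono fun p hp => ?_
    simp only [mem_filter, mem_Icc, mem_union, PP, mem_pr, Nat.mem_primeFactors] at hp ⊢
    obtain ⟨⟨a1, a2⟩, a3, a4⟩ := hp
    by_cases c1 : p ≤ k ^ 5
    · exact Or.inr (Or.inl ⟨⟨a1, c1.trans h1⟩, a3⟩)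
    by_cases c2 : p ∣ 10 ^ k - 1
    · exact Or.inr (Or.inr (Or.inl ⟨⟨a3, c2, ten_ne (by omega)⟩, not_le.1 c1⟩))
    by_cases c3 : p ≤ 10 ^ l
    · exact Or.inl ⟨⟨⟨not_le.1 c1, c3⟩, a3⟩, a4, c2⟩
    · exact Or.inr (Or.inr (Or.inr ⟨⟨not_le.1 c3, a2.trans hM⟩, a3⟩))
  have s2 := s1.trans ((Hs_union _ _).trans (add_le_add le_rfl ((Hs_union _ _).trans
    (add_le_add (Hs_all (by omega)) ((Hs_union _ _).trans (add_le_add (Hs_div (by omega))
      (Hs_log hl (by omega))))))))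
  have u0 : (0 : ℝ) < u := by exact_mod_cast hu
  have l0 : (0 : ℝ) < l := by exact_mod_cast hl
  have k0 : (0 : ℝ) < k := by exact_mod_cast (by omega : 0 < k)
  have h2' : (k : ℝ) ≤ 2 * u ^ 2 * l := by exact_mod_cast h2
  have b1 : Real.log ((2 * k : ℕ) / l) ≤ 3 + 2 * Real.log u := by
    have a1 : ((2 * k : ℕ) : ℝ) / l ≤ 4 * u ^ 2 := by
      rw [div_le_iff₀ l0]
      push_cast
      linarith
    refine (Real.log_le_log (by positivity) a1).trans ?_
    rw [Real.log_mul (by norm_num) (by positivity), Real.log_pow]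
    have := Real.log_le_sub_one_of_pos (x := 4) (by norm_num)
    push_cast
    linarith
  have b2 : Real.log (5 * u : ℕ) ≤ 4 + Real.log u := by
    push_cast
    rw [Real.log_mul (by norm_num) u0.ne']
    have := Real.log_le_sub_one_of_pos (x := 5) (by norm_num)
    linarith
  have b3 := log_le_sqrt u0
  have b4 : √(u : ℝ) ≤ 2 * √(Real.log k) := by
    rw [Real.sqrt_le_left (by positivity), mul_pow, Real.sq_sqrt (by linarith)]
    linarith
  have b5 : 1 ≤ √(Real.log k) := Real.one_le_sqrt.2 hL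
  linarith

lemma one_le_log {k : ℕ} (hk : 3 ≤ k) : 1 ≤ Real.log k := by
  have h : (3 : ℝ) ≤ k := by exact_mod_cast hk
  rw [Real.le_log_iff_exp_le (by linarith)]
  linarith [Real.exp_one_lt_d9]

lemma layer (D : ℕ) (hD : 1 ≤ D) : ∃ k0, ∀ k, k0 ≤ k → ∀ M, M ≤ 10 ^ (2 * (k + 1)) →
    (221 + 46 * (D : ℝ) ^ 2) * √(Real.log (k + 1 : ℕ)) ≤ NW M →
    cnt (10 ^ (k + 1)) (fun n => 10 ^ k ≤ n ∧ n ∈ T) ≤ 14 * (10 ^ (k + 1) / D) := by
  obtain ⟨k0, hk0⟩ := params D hD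
  refine ⟨k0 + 2176 * D, fun k' hk' M hM hN => ?_⟩
  obtain ⟨a, g, l, s, u, e, l1, u1, hg, ha, hs, c1, c2, c3⟩ := hk0 (k' + 1) (by omega)
  have hla : g + l ≤ a := le_trans (by nlinarith) ha
  have hY : 10 ^ (k' + 1) ≤ (10 ^ a) ^ 3 := by
    rw [← pow_mul]
    exact Nat.pow_le_pow_right (by norm_num) (by omega)
  have hkk : k' + 1 ≤ (k' + 1) ^ 5 := Nat.le_self_pow (by norm_num) _
  have hL := one_le_log (k := k' + 1) (by omega)
  have hμ := NW_le (by omega) l1 (by omega) u1 c1 c2 c3 hL hM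
  have hσ : 1 ≤ √(Real.log (k' + 1 : ℕ)) := Real.one_le_sqrt.2 hL
  have hσ2 := Real.sq_sqrt (show 0 ≤ Real.log (k' + 1 : ℕ) by linarith)
  have hD' : (1 : ℝ) ≤ D := by exact_mod_cast hD
  have hP : ∀ p ∈ PP (k' + 1) l, p.Prime ∧ (k' + 1) ^ 5 < p ∧ p ≤ 10 ^ l := fun p hp => by
    have := mem_pr.1 (mem_filter.1 hp).1
    exact ⟨this.2, this.1⟩
  have hμ0 := Hs_all (b := a) (by omega)
  have hla' : Real.log a ≤ Real.log (k' + 1 : ℕ) :=
    Real.log_le_log (by exact_mod_cast (by omega : 0 < a)) (by exact_mod_cast (by omega))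
  generalize √(Real.log (k' + 1 : ℕ)) = σ at *
  have hDσ : 1 ≤ (D : ℝ) * σ := by nlinarith
  have hμ1 : 46 * (D : ℝ) ^ 2 * σ ≤ Hs (PP (k' + 1) l) := by linarith
  have hμ2 : (D : ℝ) * σ ≤ D ^ 2 * σ := by nlinarith
  have hμ3 : (D : ℝ) ^ 2 ≤ D ^ 2 * σ := by nlinarith
  have hμ4 : (D : ℝ) ≤ D ^ 2 := by nlinarith
  refine (cnt_T (a := a) (b := a + (g + l)) (D := D) (P := PP (k' + 1) l) (t0 := 6 * (D * σ))
    (t1 := Hs (PP (k' + 1) l) / 2) hY (fun p hp => ?_) (by linarith)).trans ?_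
  · have h1 := hP p hp
    have h2 := (mem_filter.1 hp).2
    exact ⟨h1.1, by omega, by omega, by omega, h2.1, h2.2⟩
  have hk1 : 2176 * D ≤ k' + 1 := by omega
  generalize k' + 1 = k at *
  have hk2 : (2176 : ℝ) * D ≤ k := by exact_mod_cast hk1
  have hk3 : (1 : ℝ) ≤ k := by linarith
  have hX : (0 : ℝ) < 10 ^ k := by positivity
  have hsq : ∀ c ≤ 10 ^ a, c ^ 2 ≤ 10 ^ k := fun c hc => by
    refine (Nat.pow_le_pow_left hc 2).trans ?_
    rw [← pow_mul]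
    exact Nat.pow_le_pow_right (by norm_num) (by omega)
  have hpow : 10 ^ l ≤ 10 ^ a := Nat.pow_le_pow_right (by norm_num) (by omega)
  have fin : ∀ x : ℝ, x * D ≤ 1 → 10 ^ k * x ≤ 10 ^ k / D := fun x hx => by
    rw [le_div_iff₀ (by linarith), mul_assoc]
    exact mul_le_of_le_one_right hX.le hx
  have b0 : cnt (10 ^ k) (fun m => m = 0) ≤ 10 ^ k / D := by
    refine (cnt_zero _).trans ((one_le_div (by linarith)).2 ?_)
    have : k ≤ 10 ^ k := (Nat.lt_pow_self (by norm_num)).le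
    exact_mod_cast (by omega : D ≤ 10 ^ k)
  have b1 : cnt (10 ^ k) (Sq D) ≤ 10 ^ k / D := by
    have := cnt_sq (10 ^ k) (D := D) (by omega)
    push_cast at this
    exact this
  have b2 := (cheb (10 ^ k) (pr 0 (10 ^ a)) (fun _ => pr_prime) (hsq _ (card_pr _ _))
    (t := 6 * (D * σ)) (by linarith)).trans (c := (10 : ℝ) ^ k / D) (by
      push_cast
      rw [mul_div_assoc]
      refine fin _ ?_
      rw [div_mul_eq_mul_div, div_le_one (by positivity)]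
      calc _ ≤ 36 * σ ^ 2 * D ^ 2 := mul_le_mul (by linarith) hμ4 (by linarith) (by positivity)
        _ = _ := by ring)
  have b3 := (cheb (10 ^ k) (PP k l) (fun p hp => (hP p hp).1)
    (hsq _ (((card_filter_le _ _).trans (card_pr _ _)).trans hpow))
    (t := Hs (PP k l) / 2) (by linarith)).trans (c := (10 : ℝ) ^ k / D) (by
      push_cast
      rw [mul_div_assoc]
      refine fin _ ?_
      rw [div_mul_eq_mul_div, div_le_one (pow_pos (by linarith) 2)]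
      calc _ ≤ 2 * Hs (PP k l) * (Hs (PP k l) / 8) :=
            mul_le_mul (by linarith) (by linarith) (by linarith) (by linarith)
        _ = _ := by ring)
  have b4 := (cnt_same (k := k) (W := k ^ 5) (by omega) (by omega) (P := PP k l) fun p hp =>
    ⟨(hP p hp).1, (hP p hp).2.1, (hP p hp).2.2.trans
      (Nat.pow_le_pow_right (by norm_num) (by omega))⟩).trans (c := (10 : ℝ) ^ k / D) (by
      rw [div_mul_eq_mul_div, mul_div_assoc]
      refine fin _ ?_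
      push_cast
      rw [div_mul_eq_mul_div, div_le_one (by positivity)]
      have : (k : ℝ) ≤ k ^ 3 := le_self_pow₀ hk3 (by norm_num)
      calc _ = (k : ℝ) ^ 2 * (16 * D) := by ring
        _ ≤ k ^ 2 * k ^ 3 := by gcongr; linarith
        _ = _ := by ring)
  have b5 := (cnt_mid (10 ^ k) (a := a) (by omega) (g + l)).trans (c := (10 : ℝ) ^ k / D) (by
      rw [Nat.cast_pow, Nat.cast_ofNat]
      refine fin _ ?_
      rw [div_mul_eq_mul_div, div_le_one (by exact_mod_cast (by omega : 0 < a))]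
      exact_mod_cast (by rw [mul_right_comm]; exact ha : 10 * (g + l) * D ≤ a))
  have b6 := cnt_jnt (a := a) (g := g) (W := k ^ 5) (θ := 1 / (k : ℝ) ^ 5) (by omega)
    (by omega : l ≤ a) (by omega) hP hg (by simp) hs
  rw [← e] at b6
  have b7 := b6.trans (fin _ (by
    have e2 : 2176 * (k : ℝ) ^ 4 * (1 / k ^ 5) * D = 2176 * D / k := by field_simp
    rw [e2, div_le_one (by linarith)]
    exact hk2))
  have b8 := (cnt_or (10 ^ k) _ _).trans (add_le_add b0 ((cnt_or _ _ _).trans (add_le_add b1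
    ((cnt_or _ _ _).trans (add_le_add b2 ((cnt_or _ _ _).trans (add_le_add b3
      ((cnt_or _ _ _).trans (add_le_add b4 ((cnt_or _ _ _).trans (add_le_add b5 b7)))))))))))
  have b9 : cnt (10 ^ k) (Bad k a (a + (g + l)) D (10 ^ a) (PP k l) (6 * (D * σ))
    (Hs (PP k l) / 2)) ≤ _ := b8
  linarith

end Pool.Agent.MP_760060_nt

end

section

/-! Summation over the numbers of digits. -/

namespace Pool.Agent.MP_760060_nt

open Finset

lemma S_card {j M : ℕ} (hM : 10 ^ (j + 2) ≤ M) : 10 ^ j ≤ (S ∩ Set.Icc 1 M).ncard := by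
  have h := Set.ncard_le_ncard_of_injOn (s := (range (10 ^ j) : Set ℕ)) (t := S ∩ Set.Icc 1 M)
    (fun y => 2 + 10 ^ 1 * (y + 10 ^ j)) (fun y hy => ?_) (fun y _ z _ h => by simpa using h)
    ((Set.finite_Icc 1 M).inter_of_right _)
  · rwa [Set.ncard_coe_finset, card_range] at h
  have h1 : y < 10 ^ j := by simpa using hy
  have e1 : 10 ^ (j + 1) = 10 * 10 ^ j := pow_succ' _ _
  have e2 : 10 ^ (j + 1 + 1) = 100 * 10 ^ j := by ring
  have e3 : 100 * 10 ^ j ≤ M := e2 ▸ hM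
  refine ⟨⟨by omega, ?_⟩, by omega, by omega⟩
  rw [rev_eq (k := j + 1) (by omega) (by omega), add_comm (j + 1) 1, R_add 1 _ _ (by norm_num),
    R_one (by norm_num)]
  omega

lemma T_card (M h k : ℕ) (hM : M < 10 ^ k) : ((T ∩ Set.Icc 1 M).ncard : ℝ) ≤
    10 ^ h + ∑ j ∈ Ico h k, cnt (10 ^ (j + 1)) (fun n => 10 ^ j ≤ n ∧ n ∈ T) := by
  classical
  have h1 : (T ∩ Set.Icc 1 M).ncard ≤ ((range (10 ^ h)) ∪ (Ico h k).biUnion fun j =>
      (range (10 ^ (j + 1))).filter fun n => 10 ^ j ≤ n ∧ n ∈ T).card := by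
    rw [← Set.ncard_coe_finset]
    refine Set.ncard_le_ncard (fun n hn => ?_) (finite_toSet _)
    obtain ⟨h2, h3, h4⟩ := hn
    simp only [coe_union, coe_range, Set.mem_union, Set.mem_Iio, mem_coe, mem_biUnion, mem_Ico,
      mem_filter, mem_range]
    rcases lt_or_ge n (10 ^ h) with h5 | h5
    · exact Or.inl h5
    · exact Or.inr ⟨Nat.log 10 n, ⟨Nat.le_log_of_pow_le (by norm_num) h5,
        Nat.log_lt_of_lt_pow (by omega) (h4.trans_lt hM)⟩,
        Nat.lt_pow_succ_log_self (by norm_num) n, Nat.pow_log_le_self 10 (by omega), h2⟩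
  have h2 := h1.trans ((card_union_le _ _).trans (add_le_add le_rfl card_biUnion_le))
  rw [card_range] at h2
  simp only [cnt_eq]
  exact_mod_cast h2

lemma geom_le (k : ℕ) : ∑ j ∈ range k, (10 : ℝ) ^ (j + 1) ≤ 2 * 10 ^ k := by
  induction k with
  | zero => simp
  | succ k ih =>
    have : (0 : ℝ) < 10 ^ k := by positivity
    rw [sum_range_succ, pow_succ]
    linarith

theorem main (ε : ℝ) (hε : 0 < ε) : ∃ K : ℝ, ∃ M₀ : ℕ, ∀ M : ℕ, M₀ ≤ M →
    K * √(Real.log (Real.log M)) ≤ NW M →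
      ((T ∩ Set.Icc 1 M).ncard : ℝ) ≤ ε * (S ∩ Set.Icc 1 M).ncard := by
  obtain ⟨D, hD⟩ := exists_nat_gt (29000 / ε)
  have hD0 : (0 : ℝ) < D := lt_trans (by positivity) hD
  have hD1 : 1 ≤ D := by exact_mod_cast hD0
  obtain ⟨k0, hk0⟩ := layer D hD1
  refine ⟨221 + 46 * (D : ℝ) ^ 2, 10 ^ (2 * (k0 + D) + 2), fun M hM hN => ?_⟩
  have hM0 : M ≠ 0 := by
    have : 0 < 10 ^ (2 * (k0 + D) + 2) := by positivity
    omega
  obtain ⟨j, hj⟩ : ∃ j, Nat.log 10 M = j + 2 :=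
    Nat.exists_eq_add_of_le' (le_trans (by omega) (Nat.le_log_of_pow_le (by norm_num) hM))
  have h1 : 2 * (k0 + D) ≤ j := by
    have := Nat.le_log_of_pow_le (by norm_num) hM
    omega
  have h2 : 10 ^ (j + 2) ≤ M := hj ▸ Nat.pow_log_le_self 10 hM0
  have h3 : M < 10 ^ (j + 3) := by
    have := Nat.lt_pow_succ_log_self (b := 10) (by norm_num) M
    rwa [hj] at this
  have h4 : ((j + 3 : ℕ) : ℝ) ≤ Real.log M := by
    have a1 : (10 : ℝ) ^ (j + 2) ≤ M := by exact_mod_cast h2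
    have a2 := Real.log_le_log (by positivity) a1
    have a3 : 2 ≤ Real.log 10 := by
      rw [Real.le_log_iff_exp_le (by norm_num), show (2 : ℝ) = (2 : ℕ) * 1 by norm_num,
        Real.exp_nat_mul]
      exact (pow_le_pow_left₀ (Real.exp_pos 1).le Real.exp_one_lt_d9.le 2).trans (by norm_num)
    rw [Real.log_pow] at a2
    push_cast at a2 ⊢
    nlinarith [(Nat.cast_nonneg j : (0 : ℝ) ≤ j)]
  have h5 : ∑ i ∈ Ico ((j + 3) / 2) (j + 3), cnt (10 ^ (i + 1)) (fun n => 10 ^ i ≤ n ∧ n ∈ T) ≤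
      14 * (2 * 10 ^ (j + 3) / D) := by
    refine (sum_le_sum (g := fun i => 14 * ((10 : ℝ) ^ (i + 1) / D)) fun i hi => ?_).trans ?_
    · rw [mem_Ico] at hi
      refine hk0 i (by omega) M (h3.le.trans (Nat.pow_le_pow_right (by norm_num) (by omega)))
        (le_trans (mul_le_mul_of_nonneg_left (Real.sqrt_le_sqrt (Real.log_le_log
          (by positivity) (le_trans ?_ h4))) (by positivity)) hN)
      exact_mod_cast hi.2
    · rw [← mul_sum, ← sum_div]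
      gcongr
      exact (sum_le_sum_of_subset_of_nonneg (fun i hi => mem_range.2 (mem_Ico.1 hi).2)
        fun _ _ _ => by positivity).trans (geom_le _)
  have h6 : (10 : ℝ) ^ ((j + 3) / 2) ≤ 10 ^ (j + 3) / D := by
    rw [le_div_iff₀ hD0]
    have a1 : D ≤ 10 ^ D := (Nat.lt_pow_self (by norm_num)).le
    have a2 : 10 ^ ((j + 3) / 2) * D ≤ 10 ^ (j + 3) := by
      refine (Nat.mul_le_mul_left _ a1).trans ?_
      rw [← pow_add]
      exact Nat.pow_le_pow_right (by norm_num) (by omega)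
    exact_mod_cast a2
  have h7 : (10 : ℝ) ^ j ≤ (S ∩ Set.Icc 1 M).ncard := by exact_mod_cast S_card h2
  refine ((T_card M _ _ h3).trans (add_le_add h6 h5)).trans
    (le_trans ?_ (mul_le_mul_of_nonneg_left h7 hε.le))
  rw [div_lt_iff₀ hε] at hD
  have e : (10 : ℝ) ^ (j + 3) / D + 14 * (2 * 10 ^ (j + 3) / D) = 29000 / D * 10 ^ j := by ring
  rw [e]
  refine mul_le_mul_of_nonneg_right ?_ (by positivity)
  rw [div_le_iff₀ hD0]
  linarith

end Pool.Agent.MP_760060_nt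

end
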